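import Pool.Agent.H75.Davis.Cox

/-!
# Exactness of the Davis complex, function version

A `k`-chain is a family `f σ w` indexed by cliques `σ` with `k` elements, invariant under
right multiplication of `w` by the generators in `σ`, with finite support.
-/

namespace Pool.Agent.H75.Davis

open Finset

set_option linter.unusedSectionVars false

section nrm

variable {V W : Type} [DecidableEq V] [Group W] (s : V → W) (P : V → W → Prop)

/-- one normalisation step -/
noncomputable def stp (v : V) (w : W) : W := by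
  classical exact if P v w then w else w * s v

lemma stp_pos {v : V} {w : W} (h : P v w) : stp s P v w = w := by
  unfold stp; rw [if_pos h]

lemma stp_neg {v : V} {w : W} (h : ¬ P v w) : stp s P v w = w * s v := by
  unfold stp; rw [if_neg h]

/-- normalisation along a list -/
noncomputable def nrm : List V → W → W
  | [], w => w
  | a :: l, w => nrm l (stp s P a w)

variable {s P} {adj : V → V → Prop}
  (sq : ∀ v, s v * s v = 1)
  (comm : ∀ u v, adj u v → s u * s v = s v * s u)
  (flip : ∀ w v, P v (w * s v) ↔ ¬ P v w)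
  (inv : ∀ w u v, adj u v → (P v (w * s u) ↔ P v w))

include sq flip in
lemma stp_mul_self (v : V) (w : W) : stp s P v (w * s v) = stp s P v w := by
  by_cases h : P v w
  · have h2 : ¬ P v (w * s v) := fun h' => (flip w v).1 h' h
    rw [stp_pos s P h, stp_neg s P h2, mul_assoc, sq, mul_one]
  · have h2 : P v (w * s v) := (flip w v).2 h
    rw [stp_neg s P h, stp_pos s P h2]

include comm inv in
lemma stp_mul {u v : V} (h : adj u v) (w : W) :
    stp s P v (w * s u) = stp s P v w * s u := by
  by_cases hP : P v w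
  · rw [stp_pos s P hP, stp_pos s P ((inv w u v h).2 hP)]
  · rw [stp_neg s P hP, stp_neg s P (fun h' => hP ((inv w u v h).1 h')), mul_assoc,
      comm u v h, mul_assoc]

lemma nrm_inv {α : Type} (f : W → α) (l : List V) (hf : ∀ v ∈ l, ∀ w, f (w * s v) = f w) (w : W) :
    f (nrm s P l w) = f w := by
  induction l generalizing w with
  | nil => rfl
  | cons a l ih =>
    unfold nrm
    rw [ih (fun v hv => hf v (List.mem_cons_of_mem _ hv))]
    by_cases h : P a w
    · rw [stp_pos s P h]
    · rw [stp_neg s P h]; exact hf a List.mem_cons_self w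

lemma nrm_self (l : List V) (w : W) (h : ∀ v ∈ l, P v w) : nrm s P l w = w := by
  induction l generalizing w with
  | nil => rfl
  | cons a l ih =>
    unfold nrm
    rw [stp_pos s P (h a List.mem_cons_self)]
    exact ih w (fun v hv => h v (List.mem_cons_of_mem _ hv))

include sq comm flip inv in
lemma nrm_mul (l : List V) (hl : l.Nodup)
    (hc : ∀ u ∈ l, ∀ v ∈ l, u ≠ v → adj u v) (w : W) (v : V) (hv : v ∈ l) :
    nrm s P l (w * s v) = nrm s P l w := by
  induction l generalizing w with
  | nil => simp at hv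
  | cons a l ih =>
    unfold nrm
    rw [List.nodup_cons] at hl
    rcases List.mem_cons.1 hv with rfl | hv'
    · rw [stp_mul_self sq flip]
    · have hne : v ≠ a := by rintro rfl; exact hl.1 hv'
      rw [stp_mul comm inv (hc v hv a List.mem_cons_self hne)]
      exact ih hl.2 (fun u hu v hv => hc u (List.mem_cons_of_mem _ hu) v
        (List.mem_cons_of_mem _ hv)) _ hv'

include sq comm flip inv in
lemma nrm_P (l : List V) (hl : l.Nodup)
    (hc : ∀ u ∈ l, ∀ v ∈ l, u ≠ v → adj u v) (w : W) (v : V) (hv : v ∈ l) :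
    P v (nrm s P l w) := by
  induction l generalizing w with
  | nil => simp at hv
  | cons a l ih =>
    unfold nrm
    rw [List.nodup_cons] at hl
    rcases List.mem_cons.1 hv with rfl | hv'
    · have h1 := nrm_inv (s := s) (P := P) (fun w => P v w) l (fun u hu w => by
        have hne : u ≠ v := by rintro rfl; exact hl.1 hu
        exact propext (inv w u v (hc u (List.mem_cons_of_mem _ hu) v hv hne))) (stp s P v w)
      rw [h1]
      by_cases h : P v w
      · rw [stp_pos s P h]; exact h
      · rw [stp_neg s P h]; exact (flip w v).2 h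
    · exact ih hl.2 (fun u hu v hv => hc u (List.mem_cons_of_mem _ hu) v
        (List.mem_cons_of_mem _ hv)) _ hv'

lemma nrm_finite (sq : ∀ v, s v * s v = 1) (l : List V) (T : Set W) (hT : T.Finite) :
    {w | nrm s P l w ∈ T}.Finite := by
  induction l generalizing T with
  | nil => exact hT
  | cons a l ih =>
    have h1 := ih T hT
    refine ((h1.union (h1.image (fun w => w * s a)))).subset ?_
    intro w hw
    have hw' : nrm s P l (stp s P a w) ∈ T := hw
    by_cases h : P a w
    · left
      rw [stp_pos s P h] at hw'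
      exact hw'
    · right
      rw [stp_neg s P h] at hw'
      refine ⟨w * s a, hw', ?_⟩
      simp only
      rw [mul_assoc, sq, mul_one]

end nrm

section chain

variable {V : Type} [Fintype V] [LinearOrder V] {adj : V → V → Prop} {W : Type} [Group W]
variable {𝕜 : Type} [CommRing 𝕜]

/-- cliques -/
def Clq (adj : V → V → Prop) (σ : Finset V) : Prop := ∀ u ∈ σ, ∀ v ∈ σ, u ≠ v → adj u v

/-- the sign of `v` relative to `σ` -/
def sg (𝕜 : Type) [CommRing 𝕜] (v : V) (σ : Finset V) : 𝕜 := (-1) ^ (σ.filter (· < v)).card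

lemma sg_sq (v : V) (σ : Finset V) : sg 𝕜 v σ * sg 𝕜 v σ = 1 := by
  unfold sg
  rw [← pow_add, ← two_mul, pow_mul]
  simp

lemma sg_insert_self (v : V) (σ : Finset V) : sg 𝕜 v (insert v σ) = sg 𝕜 v σ := by
  unfold sg
  rw [Finset.filter_insert, if_neg (lt_irrefl v)]

lemma sg_erase_self (v : V) (σ : Finset V) : sg 𝕜 v (σ.erase v) = sg 𝕜 v σ := by
  by_cases h : v ∈ σ
  · conv_rhs => rw [← Finset.insert_erase h]
    rw [sg_insert_self]
  · rw [Finset.erase_eq_of_notMem h]

lemma sg_insert_lt {u v : V} {σ : Finset V} (hu : u ∉ σ) (h : u < v) :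
    sg 𝕜 v (insert u σ) = - sg 𝕜 v σ := by
  unfold sg
  rw [Finset.filter_insert, if_pos h, Finset.card_insert_of_notMem (by simp [hu]), pow_succ]
  ring

lemma sg_insert_gt {u v : V} {σ : Finset V} (h : ¬ u < v) :
    sg 𝕜 v (insert u σ) = sg 𝕜 v σ := by
  unfold sg
  rw [Finset.filter_insert, if_neg h]

lemma sg_swap {u v : V} {σ : Finset V} (hu : u ∉ σ) (hv : v ∉ σ) (h : u ≠ v) :
    sg 𝕜 u (insert v σ) * sg 𝕜 v σ = - (sg 𝕜 v (insert u σ) * sg 𝕜 u σ) := by
  rcases lt_or_gt_of_ne h with h1 | h1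
  · rw [sg_insert_lt hu h1, sg_insert_gt (not_lt.2 h1.le)]; ring
  · rw [sg_insert_lt hv h1, sg_insert_gt (not_lt.2 h1.le)]; ring

/-- boundary -/
def bd (f : Finset V → W → 𝕜) (τ : Finset V) (w : W) : 𝕜 :=
  ∑ v ∈ univ.filter (· ∉ τ), sg 𝕜 v τ * f (insert v τ) w

lemma bd_bd (f : Finset V → W → 𝕜) : bd (bd f) = 0 := by
  funext τ w
  unfold bd
  simp only [Finset.mul_sum, Pi.zero_apply]
  rw [Finset.sum_sigma']
  refine Finset.sum_involution (fun x _ => ⟨x.2, x.1⟩) ?_ ?_ ?_ ?_
  · rintro ⟨a, b⟩ h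
    simp only [Finset.mem_sigma, Finset.mem_filter, Finset.mem_univ, true_and,
      Finset.mem_insert, not_or] at h
    obtain ⟨ha, hba, hb⟩ := h
    simp only
    rw [Finset.insert_comm a b τ]
    have := sg_swap (𝕜 := 𝕜) ha hb (Ne.symm hba)
    linear_combination (f (insert b (insert a τ)) w) * this
  · rintro ⟨a, b⟩ h _
    simp only [Finset.mem_sigma, Finset.mem_filter, Finset.mem_univ, true_and,
      Finset.mem_insert, not_or] at h
    intro heq
    simp only [Sigma.mk.injEq, heq_eq_eq] at heq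
    exact h.2.1 heq.1
  · rintro ⟨a, b⟩ h
    simp only [Finset.mem_sigma, Finset.mem_filter, Finset.mem_univ, true_and,
      Finset.mem_insert, not_or] at h ⊢
    exact ⟨h.2.2, Ne.symm h.2.1, h.1⟩
  · rintro ⟨a, b⟩ _
    rfl

lemma bd_sub (f g : Finset V → W → 𝕜) : bd (fun σ w => f σ w - g σ w) =
    fun τ w => bd f τ w - bd g τ w := by
  funext τ w
  unfold bd
  rw [← Finset.sum_sub_distrib]
  exact Finset.sum_congr rfl fun v _ => by ring

lemma bd_add (f g : Finset V → W → 𝕜) : bd (fun σ w => f σ w + g σ w) =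
    fun τ w => bd f τ w + bd g τ w := by
  funext τ w
  unfold bd
  rw [← Finset.sum_add_distrib]
  exact Finset.sum_congr rfl fun v _ => by ring

variable (R : RData V adj W)

/-- `k`-chains -/
structure IsCh (k : ℕ) (f : Finset V → W → 𝕜) : Prop where
  supp : ∀ σ w, f σ w ≠ 0 → Clq adj σ ∧ σ.card = k
  inv : ∀ σ w v, v ∈ σ → f σ (w * R.s v) = f σ w
  fin : {w | ∃ σ, f σ w ≠ 0}.Finite

variable {R}

lemma IsCh.bd {k : ℕ} {f : Finset V → W → 𝕜} (h : IsCh R (k + 1) f) :
    IsCh R k (Davis.bd f) where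
  supp τ w hne := by
    unfold Davis.bd at hne
    obtain ⟨v, hv, hv2⟩ := Finset.exists_ne_zero_of_sum_ne_zero hne
    have h1 : f (insert v τ) w ≠ 0 := fun h0 => hv2 (by rw [h0, mul_zero])
    obtain ⟨hc, hk⟩ := h.supp _ _ h1
    simp only [mem_filter, mem_univ, true_and] at hv
    rw [card_insert_of_notMem hv] at hk
    exact ⟨fun a ha b hb => hc a (mem_insert_of_mem ha) b (mem_insert_of_mem hb), by omega⟩
  inv τ w v hv := by
    unfold Davis.bd
    refine Finset.sum_congr rfl fun u _ => ?_
    rw [h.inv _ _ _ (mem_insert_of_mem hv)]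
  fin := by
    refine h.fin.subset ?_
    rintro w ⟨τ, hne⟩
    unfold Davis.bd at hne
    obtain ⟨v, hv, hv2⟩ := Finset.exists_ne_zero_of_sum_ne_zero hne
    exact ⟨insert v τ, fun h0 => hv2 (by rw [h0, mul_zero])⟩

lemma IsCh.sub {k : ℕ} {f g : Finset V → W → 𝕜} (hf : IsCh R k f) (hg : IsCh R k g) :
    IsCh R k (fun σ w => f σ w - g σ w) where
  supp σ w hne := by
    by_cases h : f σ w = 0
    · exact hg.supp σ w (fun h0 => hne (by simp [h, h0]))
    · exact hf.supp σ w h
  inv σ w v hv := by rw [hf.inv _ _ _ hv, hg.inv _ _ _ hv]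
  fin := by
    refine (hf.fin.union hg.fin).subset ?_
    rintro w ⟨τ, hne⟩
    by_cases h : f τ w = 0
    · right; exact ⟨τ, fun h0 => hne (by simp [h, h0])⟩
    · left; exact ⟨τ, h⟩

lemma IsCh.add {k : ℕ} {f g : Finset V → W → 𝕜} (hf : IsCh R k f) (hg : IsCh R k g) :
    IsCh R k (fun σ w => f σ w + g σ w) where
  supp σ w hne := by
    by_cases h : f σ w = 0
    · exact hg.supp σ w (fun h0 => hne (by simp [h, h0]))
    · exact hf.supp σ w h
  inv σ w v hv := by rw [hf.inv _ _ _ hv, hg.inv _ _ _ hv]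
  fin := by
    refine (hf.fin.union hg.fin).subset ?_
    rintro w ⟨τ, hne⟩
    by_cases h : f τ w = 0
    · right; exact ⟨τ, fun h0 => hne (by simp [h, h0])⟩
    · left; exact ⟨τ, h⟩

lemma IsCh.zero (k : ℕ) : IsCh R k (fun _ _ => (0 : 𝕜)) where
  supp σ w h := absurd rfl h
  inv _ _ _ _ := rfl
  fin := by simp

variable (R)

/-- the top vertex of the `σ`-cube containing `w` -/
noncomputable def top (σ : Finset V) (w : W) : W := nrm R.s (fun v w => R.D w v) σ.toList w

variable {R}

lemma clq_list {σ : Finset V} (hσ : Clq adj σ) :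
    ∀ u ∈ σ.toList, ∀ v ∈ σ.toList, u ≠ v → adj u v := by
  intro u hu v hv
  rw [Finset.mem_toList] at hu hv
  exact hσ u hu v hv

lemma top_D {σ : Finset V} (hσ : Clq adj σ) (w : W) {v : V} (hv : v ∈ σ) :
    R.D (top R σ w) v :=
  nrm_P (P := fun v w => R.D w v) R.sq R.comm (fun w v => R.D_flip w v)
    (fun w u v h => R.D_comm w u v h) _ σ.nodup_toList (clq_list hσ) w v
    (Finset.mem_toList.2 hv)

lemma top_mul {σ : Finset V} (hσ : Clq adj σ) (w : W) {v : V} (hv : v ∈ σ) :
    top R σ (w * R.s v) = top R σ w :=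
  nrm_mul (P := fun v w => R.D w v) R.sq R.comm (fun w v => R.D_flip w v)
    (fun w u v h => R.D_comm w u v h) _ σ.nodup_toList (clq_list hσ) w v
    (Finset.mem_toList.2 hv)

lemma top_self {σ : Finset V} (w : W) (h : ∀ v ∈ σ, R.D w v) : top R σ w = w :=
  nrm_self _ _ (fun v hv => h v (Finset.mem_toList.1 hv))

lemma len_stp (v : V) (w : W) : R.len w ≤ R.len (stp R.s (fun v w => R.D w v) v w) ∧
    (stp R.s (fun v w => R.D w v) v w ≠ w →
      R.len w < R.len (stp R.s (fun v w => R.D w v) v w)) := by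
  by_cases h : R.D w v
  · rw [stp_pos R.s (fun v w => R.D w v) h]; simp
  · rw [stp_neg R.s (fun v w => R.D w v) h]
    have h2 := R.len_lt (w * R.s v) v ((R.D_flip w v).2 h)
    rw [mul_assoc, R.sq, mul_one] at h2
    exact ⟨h2.le, fun _ => h2⟩

lemma len_nrm (l : List V) (w : W) : R.len w ≤ R.len (nrm R.s (fun v w => R.D w v) l w) ∧
    (nrm R.s (fun v w => R.D w v) l w ≠ w →
      R.len w < R.len (nrm R.s (fun v w => R.D w v) l w)) := by
  induction l generalizing w with
  | nil => simp [nrm]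
  | cons a l ih =>
    unfold nrm
    obtain ⟨h1, h2⟩ := len_stp (R := R) a w
    obtain ⟨h3, h4⟩ := ih (stp R.s (fun v w => R.D w v) a w)
    refine ⟨h1.trans h3, fun hne => ?_⟩
    by_cases h5 : stp R.s (fun v w => R.D w v) a w = w
    · rw [h5] at h4 ⊢
      apply h4
      rw [h5] at hne
      exact hne
    · exact (h2 h5).trans_le h3

lemma len_top (σ : Finset V) (w : W) : R.len w ≤ R.len (top R σ w) := (len_nrm _ w).1

lemma len_top_lt (σ : Finset V) (w : W) (h : top R σ w ≠ w) : R.len w < R.len (top R σ w) :=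
  (len_nrm _ w).2 h

lemma top_finite (σ : Finset V) (T : Set W) (hT : T.Finite) : {w | top R σ w ∈ T}.Finite :=
  nrm_finite R.sq _ T hT

variable (R)

/-- the contracting homotopy at level `n` -/
noncomputable def hot (m : W → V) (k n : ℕ) (f : Finset V → W → 𝕜) (σ : Finset V) (w : W) : 𝕜 := by
  classical
  exact if R.len (top R σ w) = n ∧ m (top R σ w) ∈ σ ∧ Clq adj σ ∧ σ.card = k + 1 then
      sg 𝕜 (m (top R σ w)) σ * f (σ.erase (m (top R σ w))) (top R σ w) else 0

variable {R}

lemma hot_isCh (m : W → V) (k n : ℕ) {f : Finset V → W → 𝕜} (hf : IsCh R k f) :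
    IsCh R (k + 1) (hot R m k n f) where
  supp σ w h := by
    unfold hot at h
    by_contra hc
    apply h
    rw [if_neg]
    rintro ⟨_, _, h3⟩
    exact hc h3
  inv σ w v hv := by
    by_cases hσ : Clq adj σ
    · unfold hot
      rw [top_mul hσ w hv]
    · unfold hot
      rw [if_neg (fun h => hσ h.2.2.1), if_neg (fun h => hσ h.2.2.1)]
  fin := by
    have h1 : (⋃ σ : Finset V, {w | top R σ w ∈ {w | ∃ σ, f σ w ≠ 0}}).Finite :=
      Set.finite_iUnion (fun σ => top_finite σ _ hf.fin)
    refine h1.subset ?_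
    rintro w ⟨σ, h⟩
    rw [Set.mem_iUnion]
    refine ⟨σ, ?_⟩
    unfold hot at h
    split_ifs at h with h2
    · exact ⟨_, fun h0 => h (by rw [h0, mul_zero])⟩
    · exact absurd rfl h

/-- The value of the homotopy at vertices of maximal level. -/
lemma hot_top (m : W → V) (hm : ∀ w, w ≠ 1 → R.D w (m w)) (k n : ℕ) (hn : 0 < n)
    {f : Finset V → W → 𝕜} (hf : IsCh R k f) (hl : ∀ w, n < R.len w → ∀ σ, f σ w = 0)
    (hone : R.len 1 = 0) (w : W) (hw : R.len w = n) (σ : Finset V) :
    hot R m k n f σ w = if m w ∈ σ then sg 𝕜 (m w) σ * f (σ.erase (m w)) w else 0 := by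
  have hw1 : w ≠ 1 := by rintro rfl; omega
  -- if `f τ w ≠ 0` then `τ ⊆ D w`
  have hD : ∀ τ, f τ w ≠ 0 → ∀ v ∈ τ, R.D w v := by
    intro τ hτ v hv
    by_contra hnd
    apply hτ
    rw [← hf.inv τ w v hv]
    apply hl
    have h2 := R.len_lt (w * R.s v) v ((R.D_flip w v).2 hnd)
    rw [mul_assoc, R.sq, mul_one] at h2
    omega
  by_cases hσ : ∀ v ∈ σ, R.D w v
  · have ht : top R σ w = w := top_self w hσ
    unfold hot
    rw [ht]
    by_cases hmσ : m w ∈ σ
    · rw [if_pos hmσ]
      by_cases h0 : f (σ.erase (m w)) w = 0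
      · rw [h0]; simp
      · rw [if_pos]
        refine ⟨hw, hmσ, fun u hu v hv hne => R.D_adj w u v (hσ u hu) (hσ v hv) hne, ?_⟩
        have := (hf.supp _ _ h0).2
        rw [card_erase_of_mem hmσ] at this
        have h1 : 0 < σ.card := card_pos.2 ⟨_, hmσ⟩
        omega
    · rw [if_neg (fun h => hmσ h.2.1), if_neg hmσ]
  · push Not at hσ
    obtain ⟨v, hv, hvD⟩ := hσ
    have hL : hot R m k n f σ w = 0 := by
      by_cases hc : Clq adj σ
      · unfold hot
        rw [if_neg]
        rintro ⟨h1, -⟩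
        have h2 : top R σ w ≠ w := by
          intro h3
          have := top_D (R := R) hc w hv
          rw [h3] at this
          exact hvD this
        have := len_top_lt σ w h2
        omega
      · unfold hot
        rw [if_neg (fun h => hc h.2.2.1)]
    rw [hL]
    split_ifs with hmσ
    · have h0 : f (σ.erase (m w)) w = 0 := by
        by_contra h0
        refine hvD (hD _ h0 v (mem_erase.2 ⟨?_, hv⟩))
        rintro rfl
        exact hvD (hm w hw1)
      rw [h0, mul_zero]
    · rfl

lemma hot_above (m : W → V) (k n : ℕ) (f : Finset V → W → 𝕜) (w : W) (hw : n < R.len w)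
    (σ : Finset V) : hot R m k n f σ w = 0 := by
  unfold hot
  rw [if_neg]
  rintro ⟨h1, -⟩
  have := len_top (R := R) σ w
  omega

/-- One step of the filtration argument. -/
lemma step (m : W → V) (hm : ∀ w, w ≠ 1 → R.D w (m w)) (k n : ℕ) (hn : 0 < n)
    {f : Finset V → W → 𝕜} (hf : IsCh R k f) (hcyc : bd f = 0)
    (hl : ∀ w, n < R.len w → ∀ σ, f σ w = 0)
    (hone : R.len 1 = 0) (w : W) (hw : n ≤ R.len w) (τ : Finset V) :
    bd (hot R m k n f) τ w = f τ w := by
  rcases Nat.lt_or_ge n (R.len w) with h | h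
  · rw [hl w h]
    unfold bd
    exact Finset.sum_eq_zero fun v _ => by rw [hot_above m k n f w h, mul_zero]
  · have hw' : R.len w = n := le_antisymm h hw
    unfold bd
    simp only [hot_top m hm k n hn hf hl hone w hw']
    by_cases hmτ : m w ∈ τ
    · have h1 : ∑ v ∈ univ.filter (· ∉ τ), sg 𝕜 v τ *
          (if m w ∈ insert v τ then sg 𝕜 (m w) (insert v τ) * f ((insert v τ).erase (m w)) w else 0)
          = - (sg 𝕜 (m w) (τ.erase (m w))) * ∑ v ∈ univ.filter (· ∉ τ),
            sg 𝕜 v (τ.erase (m w)) * f (insert v (τ.erase (m w))) w := by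
        rw [Finset.mul_sum]
        refine Finset.sum_congr rfl fun v hv => ?_
        simp only [mem_filter, mem_univ, true_and] at hv
        have hne : v ≠ m w := by rintro rfl; exact hv hmτ
        rw [if_pos (mem_insert_of_mem hmτ), erase_insert_of_ne hne]
        have e1 : τ = insert (m w) (τ.erase (m w)) := (insert_erase hmτ).symm
        have e2 : m w ∉ τ.erase (m w) := notMem_erase _ _
        have e3 : v ∉ τ.erase (m w) := fun h => hv (mem_of_mem_erase h)
        have e4 : sg 𝕜 v τ = sg 𝕜 v (insert (m w) (τ.erase (m w))) := by rw [← e1]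
        have e5 : sg 𝕜 (m w) (insert v τ) = sg 𝕜 (m w) (insert v (τ.erase (m w))) := by
          conv_lhs => rw [e1, Finset.insert_comm, sg_insert_self]
        rw [e4, e5]
        have := sg_swap (𝕜 := 𝕜) e3 e2 hne
        have h3 := sg_sq (𝕜 := 𝕜) v (τ.erase (m w))
        have h4 := sg_sq (𝕜 := 𝕜) (m w) (τ.erase (m w))
        -- sg 𝕜 v (insert m τ') * sg 𝕜 m τ' = - (sg 𝕜 m (insert v τ') * sg 𝕜 v τ')
        have h5 : sg 𝕜 v (insert (m w) (τ.erase (m w))) * sg 𝕜 (m w) (insert v (τ.erase (m w)))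
            = - (sg 𝕜 (m w) (τ.erase (m w)) * sg 𝕜 v (τ.erase (m w))) := by
          have h6 := sg_sq (𝕜 := 𝕜) (m w) (insert v (τ.erase (m w)))
          linear_combination (sg 𝕜 (m w) (insert v (τ.erase (m w))) * sg 𝕜 (m w) (τ.erase (m w))) * this
            - (sg 𝕜 v (insert (m w) (τ.erase (m w))) * sg 𝕜 (m w) (insert v (τ.erase (m w)))) * h4
            - (sg 𝕜 v (τ.erase (m w)) * sg 𝕜 (m w) (τ.erase (m w))) * h6
        linear_combination (f (insert v (τ.erase (m w))) w) * h5
      rw [h1]
      have h2 : bd f (τ.erase (m w)) w = 0 := by rw [hcyc]; rfl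
      unfold bd at h2
      have h3 : univ.filter (· ∉ τ.erase (m w)) = insert (m w) (univ.filter (· ∉ τ)) := by
        ext v
        simp only [mem_filter, mem_univ, true_and, mem_erase, mem_insert]
        tauto
      rw [h3, Finset.sum_insert (by simp [hmτ]), insert_erase hmτ] at h2
      have h4 := sg_sq (𝕜 := 𝕜) (m w) (τ.erase (m w))
      linear_combination (- sg 𝕜 (m w) (τ.erase (m w))) * h2 + (f τ w) * h4
    · rw [Finset.sum_eq_single (m w)]
      · rw [if_pos (mem_insert_self _ _), sg_insert_self, erase_insert hmτ, ← mul_assoc, sg_sq,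
          one_mul]
      · intro v hv hne
        rw [if_neg, mul_zero]
        rw [mem_insert]
        rintro (h | h)
        · exact hne h.symm
        · exact hmτ h
      · intro h
        simp only [mem_filter, mem_univ, true_and, not_not] at h
        exact absurd h hmτ

/-- Every cycle is homologous to a cycle supported at level `0`. -/
lemma exact_aux (m : W → V) (hm : ∀ w, w ≠ 1 → R.D w (m w)) (hone : R.len 1 = 0) (k : ℕ) (n : ℕ) :
    ∀ f : Finset V → W → 𝕜, IsCh R k f → bd f = 0 → (∀ w, n < R.len w → ∀ σ, f σ w = 0) →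
    ∃ g, IsCh R (k + 1) g ∧ ∀ w, 0 < R.len w → ∀ σ, f σ w = bd g σ w := by
  induction n with
  | zero =>
    intro f _ _ hl
    refine ⟨fun _ _ => 0, IsCh.zero _, fun w hw σ => ?_⟩
    rw [hl w hw]
    unfold bd
    simp
  | succ n ih =>
    intro f hf hcyc hl
    have h1 := step m hm k (n + 1) (Nat.succ_pos n) hf hcyc hl hone
    have hg1 := hot_isCh m k (n + 1) hf
    obtain ⟨g2, hg2, h2⟩ := ih (fun σ w => f σ w - bd (hot R m k (n + 1) f) σ w)
      (hf.sub hg1.bd) (by rw [bd_sub, hcyc, bd_bd]; funext _ _; simp)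
      (fun w hw σ => by rw [h1 w hw σ, sub_self])
    refine ⟨fun σ w => hot R m k (n + 1) f σ w + g2 σ w, hg1.add hg2, fun w hw σ => ?_⟩
    rw [bd_add]
    have := h2 w hw σ
    simp only at this ⊢
    linear_combination this

end chain

end Pool.Agent.H75.Davis
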