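import Mathlib

/-!
# Right-angled Coxeter groups: descents

For a finite graph `adj` on `V` let `W` be the right-angled Coxeter group (`adj`acent generators
commute).  We extract the combinatorial data needed for the Davis complex.
-/

namespace Pool.Agent.H75.Davis

open CoxeterSystem

set_option linter.unusedSectionVars false

/-- Combinatorial data of a right-angled Coxeter group. -/
structure RData (V : Type) (adj : V → V → Prop) (W : Type) [Group W] where
  s : V → W
  len : W → ℕ
  D : W → V → Prop
  χ : V → W →* ℤˣ
  sq : ∀ v, s v * s v = 1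
  comm : ∀ u v, adj u v → s u * s v = s v * s u
  gen : ∀ S : Subgroup W, (∀ v, s v ∈ S) → S = ⊤
  D_nonempty : ∀ w, w ≠ 1 → ∃ v, D w v
  D_adj : ∀ w u v, D w u → D w v → u ≠ v → adj u v
  D_flip : ∀ w v, D (w * s v) v ↔ ¬ D w v
  D_comm : ∀ w u v, adj u v → (D (w * s u) v ↔ D w v)
  len_lt : ∀ w v, D w v → len (w * s v) < len w
  χ_self : ∀ v, χ v (s v) = -1
  χ_ne : ∀ u v, u ≠ v → χ u (s v) = 1

section

variable {V : Type} [Fintype V] [DecidableEq V] (adj : V → V → Prop) [DecidableRel adj]
  (hsymm : ∀ u v, adj u v → adj v u)

/-- The Coxeter matrix. -/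
def cmat (hsymm : ∀ u v, adj u v → adj v u) : CoxeterMatrix V where
  M := Matrix.of fun u v => if u = v then 1 else if adj u v then 2 else 0
  isSymm := by
    ext u v
    simp only [Matrix.transpose_apply, Matrix.of_apply]
    by_cases h : u = v
    · simp [h]
    · have h' : ¬ v = u := fun e => h e.symm
      by_cases h2 : adj u v
      · simp [h, h', h2, hsymm _ _ h2]
      · have h3 : ¬ adj v u := fun e => h2 (hsymm _ _ e)
        simp [h, h', h2, h3]
  diagonal u := by simp
  off_diagonal u v h := by
    simp only [Matrix.of_apply, h, if_false]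
    split_ifs <;> decide

lemma cmat_apply (u v : V) :
    (cmat adj hsymm) u v = if u = v then 1 else if adj u v then 2 else 0 := rfl

/-- the reflection representation: functional -/
def alph (v : V) : (V → ℤ) →ₗ[ℤ] ℤ where
  toFun x := ∑ u, (if u = v then (-2 : ℤ) else if adj u v then 0 else 2) * x u
  map_add' x y := by simp [mul_add, Finset.sum_add_distrib]
  map_smul' c x := by
    simp only [Pi.smul_apply, smul_eq_mul, RingHom.id_apply, Finset.mul_sum]
    exact Finset.sum_congr rfl fun u _ => by ring

lemma alph_single (v u : V) :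
    alph adj v (Pi.single u 1) = if u = v then (-2 : ℤ) else if adj u v then 0 else 2 := by
  simp only [alph, LinearMap.coe_mk, AddHom.coe_mk]
  rw [Finset.sum_eq_single u]
  · simp
  · intro b _ hb
    simp [hb]
  · simp

/-- the reflection -/
def refl (v : V) : Module.End ℤ (V → ℤ) :=
  LinearMap.id + (LinearMap.toSpanSingleton ℤ (V → ℤ) (Pi.single v 1)) ∘ₗ alph adj v

lemma refl_apply (v : V) (x : V → ℤ) : refl adj v x = x + alph adj v x • Pi.single v 1 := by
  simp [refl]

lemma refl_sq (v : V) : refl adj v * refl adj v = 1 := by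
  refine LinearMap.ext fun x => ?_
  rw [Module.End.mul_apply, refl_apply, refl_apply, map_add, map_smul, alph_single]
  simp only [if_true, Module.End.one_apply, smul_eq_mul, add_smul]
  module

lemma refl_comm (u v : V) (huv : adj u v) (hvu : adj v u) (hne : u ≠ v) :
    refl adj u * refl adj v = refl adj v * refl adj u := by
  refine LinearMap.ext fun x => ?_
  rw [Module.End.mul_apply, Module.End.mul_apply, refl_apply, refl_apply, refl_apply, refl_apply,
    map_add, map_smul, map_add, map_smul, alph_single, alph_single]
  simp only [hne, hne.symm, huv, hvu, if_true, if_false]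
  module

lemma refl_single_self (v : V) : refl adj v (Pi.single v 1) = - Pi.single v 1 := by
  rw [refl_apply, alph_single]; simp only [if_true]; module

lemma refl_single_adj (u v : V) (h : u ≠ v) (huv : adj u v) :
    refl adj v (Pi.single u 1) = Pi.single u 1 := by
  rw [refl_apply, alph_single]; simp [h, huv]

lemma refl_single_nadj (u v : V) (h : u ≠ v) (huv : ¬ adj u v) :
    refl adj v (Pi.single u 1) = Pi.single u 1 + (2 : ℤ) • Pi.single v 1 := by
  rw [refl_apply, alph_single]; simp [h, huv]

lemma liftable_refl :
    (cmat adj hsymm).IsLiftable (fun v => refl adj v) := by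
  intro u v
  rw [cmat_apply]
  by_cases h : u = v
  · subst h
    simp [refl_sq]
  · by_cases h2 : adj u v
    · simp only [h, if_false, h2, if_true, sq]
      have hc := refl_comm adj u v h2 (hsymm _ _ h2) h
      calc refl adj u * refl adj v * (refl adj u * refl adj v)
          = refl adj u * (refl adj v * refl adj u) * refl adj v := by noncomm_ring
        _ = refl adj u * (refl adj u * refl adj v) * refl adj v := by rw [hc]
        _ = (refl adj u * refl adj u) * (refl adj v * refl adj v) := by noncomm_ring
        _ = 1 := by rw [refl_sq, refl_sq, one_mul]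
    · simp [h, h2]

/-- The group. -/
abbrev RW (hsymm : ∀ u v, adj u v → adj v u) : Type := (cmat adj hsymm).Group

/-- the Coxeter system -/
abbrev rcs : CoxeterSystem (cmat adj hsymm) (RW adj hsymm) := (cmat adj hsymm).toCoxeterSystem

/-- the reflection representation -/
noncomputable def rho : RW adj hsymm →* Module.End ℤ (V → ℤ) :=
  (rcs adj hsymm).lift ⟨fun v => refl adj v, liftable_refl adj hsymm⟩

lemma rho_simple (v : V) : rho adj hsymm ((rcs adj hsymm).simple v) = refl adj v :=
  (rcs adj hsymm).lift_apply_simple (liftable_refl adj hsymm) v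

lemma rho_injective (w : RW adj hsymm) : Function.Injective (rho adj hsymm w) := by
  intro x y h
  have := congrArg (rho adj hsymm w⁻¹) h
  rw [← Module.End.mul_apply, ← Module.End.mul_apply, ← map_mul, inv_mul_cancel, map_one] at this
  simpa using this

lemma comm_of_adj {u v : V} (huv : adj u v) (hne : u ≠ v) :
    (rcs adj hsymm).simple u * (rcs adj hsymm).simple v = (rcs adj hsymm).simple v * (rcs adj hsymm).simple u := by
  have h := (rcs adj hsymm).simple_mul_simple_pow u v
  rw [cmat_apply] at h
  simp only [hne, if_false, huv, if_true] at h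
  have h1 : (rcs adj hsymm).simple u * (rcs adj hsymm).simple v = ((rcs adj hsymm).simple u * (rcs adj hsymm).simple v)⁻¹ := by
    rw [sq] at h
    exact eq_inv_of_mul_eq_one_left h
  rw [h1, mul_inv_rev, (rcs adj hsymm).inv_simple, (rcs adj hsymm).inv_simple]

lemma rho_mul_single (w : RW adj hsymm) (u : V) (x : V → ℤ) :
    rho adj hsymm (w * (rcs adj hsymm).simple u) x = rho adj hsymm w (refl adj u x) := by
  rw [map_mul, Module.End.mul_apply, rho_simple]

lemma desc_lt_of_adj {w : RW adj hsymm} {t v : V} (ht : (rcs adj hsymm).IsRightDescent w t)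
    (hv : ¬ (rcs adj hsymm).IsRightDescent w v) (htv : adj t v) (hne : t ≠ v) :
    ¬ (rcs adj hsymm).IsRightDescent (w * (rcs adj hsymm).simple t) v := by
  intro h
  apply hv
  unfold CoxeterSystem.IsRightDescent at *
  have h1 : w * (rcs adj hsymm).simple v = w * (rcs adj hsymm).simple t * (rcs adj hsymm).simple v * (rcs adj hsymm).simple t := by
    have := comm_of_adj adj hsymm htv hne
    rw [mul_assoc (w * (rcs adj hsymm).simple t), ← this, ← mul_assoc,
      (rcs adj hsymm).simple_mul_simple_cancel_right]
  rw [h1]
  rcases (rcs adj hsymm).length_mul_simple (w * (rcs adj hsymm).simple t * (rcs adj hsymm).simple v) t with h2 | h2 <;> omega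

/-- main positivity statement -/
lemma positivity (n : ℕ) : ∀ w : RW adj hsymm, (rcs adj hsymm).length w = n →
    (∀ v, ¬ (rcs adj hsymm).IsRightDescent w v → 0 ≤ rho adj hsymm w (Pi.single v 1)) ∧
    (∀ t v, t ≠ v → ¬ adj v t → ¬ (rcs adj hsymm).IsRightDescent w t →
      0 ≤ rho adj hsymm w (Pi.single t 1 + Pi.single v 1)) := by
  induction n using Nat.strong_induction_on with
  | _ n ih =>
  intro w hw
  have hA : ∀ v, ¬ (rcs adj hsymm).IsRightDescent w v → 0 ≤ rho adj hsymm w (Pi.single v 1) := by
    intro v hv
    by_cases h1 : w = 1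
    · subst h1
      rw [map_one, Module.End.one_apply]
      intro x
      simp only [Pi.zero_apply, Pi.single_apply]
      split_ifs <;> norm_num
    · obtain ⟨t, ht⟩ := (rcs adj hsymm).exists_rightDescent_of_ne_one h1
      have htv : t ≠ v := by rintro rfl; exact hv ht
      have hlt : (rcs adj hsymm).length (w * (rcs adj hsymm).simple t) < n := by
        rw [← hw]; exact ht
      have hnt : ¬ (rcs adj hsymm).IsRightDescent (w * (rcs adj hsymm).simple t) t :=
        (isRightDescent_iff_not_isRightDescent_mul _).1 ht
      have hw' : w = (w * (rcs adj hsymm).simple t) * (rcs adj hsymm).simple t :=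
        ((rcs adj hsymm).simple_mul_simple_cancel_right t).symm
      obtain ⟨ih1, ih2⟩ := ih _ hlt (w * (rcs adj hsymm).simple t) rfl
      by_cases hadj : adj v t
      · rw [hw', rho_mul_single, refl_single_adj adj v t htv.symm hadj]
        exact ih1 v (desc_lt_of_adj adj hsymm ht hv (hsymm _ _ hadj) htv)
      · rw [hw', rho_mul_single, refl_single_nadj adj v t htv.symm hadj]
        have e1 : (Pi.single v (1:ℤ) : V → ℤ) + (2:ℤ) • Pi.single t 1
            = (Pi.single t 1 + Pi.single v 1) + Pi.single t 1 := by module
        rw [e1, map_add]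
        exact add_nonneg (ih2 t v htv hadj hnt) (ih1 t hnt)
  refine ⟨hA, ?_⟩
  intro t v htv hadj hnt
  by_cases hv : (rcs adj hsymm).IsRightDescent w v
  · have hlt : (rcs adj hsymm).length (w * (rcs adj hsymm).simple v) < n := by
      rw [← hw]; exact hv
    have hnv : ¬ (rcs adj hsymm).IsRightDescent (w * (rcs adj hsymm).simple v) v :=
      (isRightDescent_iff_not_isRightDescent_mul _).1 hv
    have hw' : w = (w * (rcs adj hsymm).simple v) * (rcs adj hsymm).simple v :=
      ((rcs adj hsymm).simple_mul_simple_cancel_right v).symm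
    obtain ⟨ih1, ih2⟩ := ih _ hlt (w * (rcs adj hsymm).simple v) rfl
    have hadj' : ¬ adj t v := fun h => hadj (hsymm _ _ h)
    rw [hw', rho_mul_single, map_add, refl_single_self, refl_single_nadj adj t v htv hadj']
    have e1 : (Pi.single t (1:ℤ) : V → ℤ) + (2:ℤ) • Pi.single v 1 + - Pi.single v 1
        = Pi.single v 1 + Pi.single t 1 := by module
    rw [e1]
    exact ih2 v t htv.symm hadj' hnv
  · rw [map_add]
    exact add_nonneg (hA t hnt) (hA v hv)

lemma desc_iff (w : RW adj hsymm) (v : V) :
    (rcs adj hsymm).IsRightDescent w v ↔ rho adj hsymm w (Pi.single v 1) ≤ 0 := by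
  constructor
  · intro h
    have hnv : ¬ (rcs adj hsymm).IsRightDescent (w * (rcs adj hsymm).simple v) v :=
      (isRightDescent_iff_not_isRightDescent_mul _).1 h
    have := (positivity adj hsymm _ (w * (rcs adj hsymm).simple v) rfl).1 v hnv
    rw [rho_mul_single, refl_single_self, map_neg] at this
    exact neg_nonneg.1 this
  · intro h
    by_contra hn
    have h2 := (positivity adj hsymm _ w rfl).1 v hn
    have h3 : rho adj hsymm w (Pi.single v 1) = rho adj hsymm w 0 := by rw [map_zero]; exact le_antisymm h h2
    have h4 := rho_injective adj hsymm w h3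
    have := congrFun h4 v
    simp at this

lemma liftable_sign (u : V) :
    (cmat adj hsymm).IsLiftable (fun v => (if u = v then (-1 : ℤˣ) else 1)) := by
  intro i j
  rw [cmat_apply]
  by_cases h : i = j
  · subst h
    simp only [if_true, pow_one]
    split_ifs <;> decide
  · by_cases h2 : adj i j
    · simp only [h, if_false, h2, if_true]
      split_ifs <;> decide
    · simp [h, h2]

/-- The right-angled Coxeter data. -/
noncomputable def rdata (hirr : ∀ v, ¬ adj v v) : RData V adj (RW adj hsymm) where
  s := (rcs adj hsymm).simple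
  len := (rcs adj hsymm).length
  D w v := (rcs adj hsymm).IsRightDescent w v
  χ u := (rcs adj hsymm).lift ⟨fun v => (if u = v then (-1 : ℤˣ) else 1), liftable_sign adj hsymm u⟩
  sq v := (rcs adj hsymm).simple_mul_simple_self v
  comm u v h := comm_of_adj adj hsymm h (by rintro rfl; exact hirr _ h)
  gen S h := by
    rw [← top_le_iff, ← (rcs adj hsymm).subgroup_closure_range_simple, Subgroup.closure_le]
    rintro _ ⟨v, rfl⟩
    exact h v
  D_nonempty w h := (rcs adj hsymm).exists_rightDescent_of_ne_one h
  D_adj w u v hu hv hne := by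
    by_contra hadj
    have hadj' : ¬ adj v u := fun h => hadj (hsymm _ _ h)
    have hu1 := (desc_iff adj hsymm w u).1 hu
    have hv1 := (desc_iff adj hsymm w v).1 hv
    have hnu : ¬ (rcs adj hsymm).IsRightDescent (w * (rcs adj hsymm).simple u) u :=
      (isRightDescent_iff_not_isRightDescent_mul _).1 hu
    have h3 := (positivity adj hsymm _ (w * (rcs adj hsymm).simple u) rfl).2 u v hne hadj' hnu
    rw [rho_mul_single, map_add, refl_single_self, refl_single_nadj adj v u hne.symm hadj'] at h3
    have e1 : - (Pi.single u (1:ℤ) : V → ℤ) + (Pi.single v 1 + (2:ℤ) • Pi.single u 1)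
        = Pi.single u 1 + Pi.single v 1 := by module
    rw [e1] at h3
    have h4 : rho adj hsymm w (Pi.single u 1 + Pi.single v 1) = rho adj hsymm w 0 := by
      rw [map_zero]
      refine le_antisymm ?_ h3
      rw [map_add]
      exact add_nonpos hu1 hv1
    have h5 := congrFun (rho_injective adj hsymm w h4) u
    simp [hne] at h5
  D_flip w v := by
    have := (rcs adj hsymm).isRightDescent_iff_not_isRightDescent_mul (w := w) (i := v)
    tauto
  D_comm w u v h := by
    have hne : v ≠ u := by rintro rfl; exact hirr _ h
    rw [desc_iff, desc_iff, rho_mul_single, refl_single_adj adj v u hne (hsymm _ _ h)]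
  len_lt w v h := h
  χ_self v := by
    rw [lift_apply_simple]; simp
  χ_ne u v h := by
    rw [lift_apply_simple]; simp [h]

end

end Pool.Agent.H75.Davis
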