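import Pool.Agent.H75.Davis.FreeAct

/-!
# Equivariant maps to the group ring
-/

namespace Pool.Agent.H75.Davis

open CategoryTheory

section

variable {𝕜 : Type} [CommRing 𝕜] {Λ : Type} [Group Λ] {X : Type} [MulAction Λ X]

/-- the function associated with an equivariant map to the group ring -/
noncomputable def phi (F : (perm 𝕜 Λ X).IntertwiningMap (Representation.ofMulAction 𝕜 Λ Λ))
    (x : X) : 𝕜 := (F (Finsupp.single x 1)).coeff 1

lemma F_smul (F : (perm 𝕜 Λ X).IntertwiningMap (Representation.ofMulAction 𝕜 Λ Λ))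
    (g : Λ) (x : X) : F (Finsupp.single (g • x) 1) =
      Representation.ofMulAction 𝕜 Λ Λ g (F (Finsupp.single x 1)) := by
  rw [← F.isIntertwining, perm_single]

lemma phi_smul (F : (perm 𝕜 Λ X).IntertwiningMap (Representation.ofMulAction 𝕜 Λ Λ))
    (g : Λ) (x : X) : phi F (g • x) = (F (Finsupp.single x 1)).coeff g⁻¹ := by
  unfold phi
  rw [F_smul, Representation.coeff_ofMulAction, smul_eq_mul, mul_one]

lemma phi_finite [Finite (Orb Λ X)]
    (F : (perm 𝕜 Λ X).IntertwiningMap (Representation.ofMulAction 𝕜 Λ Λ)) :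
    (Function.support (phi F)).Finite := by
  have h1 : (⋃ b : Orb Λ X, (fun g : Λ => g⁻¹ • orep b) ''
      ((F (Finsupp.single (orep b) 1)).coeff.support : Set Λ)).Finite :=
    Set.finite_iUnion (fun b => Set.Finite.image _ (Finset.finite_toSet _))
  refine h1.subset ?_
  intro x hx
  rw [Set.mem_iUnion]
  refine ⟨Quotient.mk'' x, (otr Λ x)⁻¹, ?_, ?_⟩
  · rw [Function.mem_support, ← otr_smul (Λ := Λ) x, phi_smul] at hx
    simpa using hx
  · simp only [inv_inv]
    exact otr_smul x

lemma phi_injective {F F' : (perm 𝕜 Λ X).IntertwiningMap (Representation.ofMulAction 𝕜 Λ Λ)}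
    (h : phi F = phi F') : F = F' := by
  apply Representation.IntertwiningMap.toLinearMap_injective
  refine Finsupp.lhom_ext fun x c => ?_
  have h1 : F (Finsupp.single x 1) = F' (Finsupp.single x 1) := by
    ext g
    have := congrFun h (g⁻¹ • x)
    rw [phi_smul, phi_smul, inv_inv] at this
    exact this
  have h2 : Finsupp.single x c = c • Finsupp.single x (1 : 𝕜) := by simp
  rw [h2, map_smul, map_smul]
  congr 1

variable (hfree : ∀ (g : Λ) (x : X), g • x = x → g = 1)

/-- value of the inverse construction -/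
noncomputable def val (ψ : X →₀ 𝕜) (x : X) : MonoidAlgebra 𝕜 Λ :=
  MonoidAlgebra.ofCoeff (Finsupp.comapDomain (fun g : Λ => g⁻¹ • x) ψ (by
    intro g _ g' _ h
    simp only at h
    have h2 : (g' * g⁻¹) • x = x := by rw [mul_smul, h, smul_inv_smul]
    have := hfree _ _ h2
    exact (mul_inv_eq_one.1 this).symm))

lemma val_coeff (ψ : X →₀ 𝕜) (x : X) (g : Λ) : (val hfree ψ x).coeff g = ψ (g⁻¹ • x) := rfl

include hfree in
lemma phi_surjective (ψ : X →₀ 𝕜) :
    ∃ F : (perm 𝕜 Λ X).IntertwiningMap (Representation.ofMulAction 𝕜 Λ Λ), ∀ x, phi F x = ψ x := by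
  refine ⟨⟨Finsupp.linearCombination 𝕜 (val hfree ψ), fun g => ?_⟩, fun x => ?_⟩
  · refine Finsupp.lhom_ext fun x c => ?_
    simp only [LinearMap.coe_comp, Function.comp_apply]
    rw [perm_single, Finsupp.linearCombination_single, Finsupp.linearCombination_single, map_smul]
    congr 1
    ext h
    rw [Representation.coeff_ofMulAction, val_coeff, val_coeff, smul_eq_mul, mul_inv_rev, inv_inv,
      mul_smul]
  · unfold phi
    change (Finsupp.linearCombination 𝕜 (val hfree ψ) (Finsupp.single x 1)).coeff 1 = _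
    rw [Finsupp.linearCombination_single, one_smul, val_coeff, inv_one, one_smul]

end

end Pool.Agent.H75.Davis
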