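import Pool.Agent.H75.Davis.Res
import Pool.Agent.H75.Davis.Dual

/-!
# Cochains with compact support on the Davis complex
-/

namespace Pool.Agent.H75.Davis

open CategoryTheory Finset

set_option linter.unusedSectionVars false

variable {V : Type} [Fintype V] [LinearOrder V] {adj : V → V → Prop} {W : Type} [Group W]
variable {R : RData V adj W} {𝕜 : Type} [CommRing 𝕜]
variable (hirr : ∀ v, ¬ adj v v)

section basis

variable (R 𝕜) in
/-- basis cochain of the `σ`-cube containing `w` -/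
noncomputable def e (k : ℕ) (σ : Finset V) (w : W) : Q R k →₀ 𝕜 := by
  classical
  exact if h : QP R k (σ, rep R σ w) then Finsupp.single ⟨_, h⟩ 1 else 0

lemma e_self {k : ℕ} (q : Q R k) : e R 𝕜 k q.1.1 q.1.2 = Finsupp.single q 1 := by
  obtain ⟨⟨σ, w⟩, h1, h2, h3⟩ := q
  have h4 : rep R σ w = w := rep_self σ w h3
  unfold e
  have h5 : QP R k (σ, rep R σ w) := by rw [h4]; exact ⟨h1, h2, h3⟩
  rw [dif_pos h5]
  congr 1
  exact Q_ext rfl h4

lemma e_zero {k : ℕ} {σ : Finset V} (h : ¬ (Clq adj σ ∧ σ.card = k)) (w : W) :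
    e R 𝕜 k σ w = 0 := by
  unfold e
  rw [dif_neg]
  intro h2
  exact h ⟨h2.1, h2.2.1⟩

include hirr in
lemma e_eq {k : ℕ} {σ : Finset V} (h1 : Clq adj σ) (h2 : σ.card = k) (w : W) :
    e R 𝕜 k σ w =
      Finsupp.single ⟨(σ, rep R σ w), h1, h2, fun _ hv => rep_chi hirr h1 w hv⟩ 1 := by
  unfold e
  exact dif_pos _

include hirr in
lemma e_mul {k : ℕ} (σ : Finset V) (w : W) {v : V} (hv : v ∈ σ) :
    e R 𝕜 k σ (w * R.s v) = e R 𝕜 k σ w := by
  by_cases h : Clq adj σ ∧ σ.card = k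
  · rw [e_eq hirr h.1 h.2, e_eq hirr h.1 h.2]
    congr 1
    exact Q_ext rfl (rep_mul hirr h.1 w hv)
  · rw [e_zero h, e_zero h]

include hirr in
lemma e_rep {k : ℕ} (σ τ : Finset V) (hτ : τ ⊆ σ) (w : W) :
    e R 𝕜 k σ (rep R τ w) = e R 𝕜 k σ w :=
  rep_inv (fun w => e R 𝕜 k σ w) τ (fun _ hv w => e_mul hirr σ w (hτ hv)) w

variable (𝕜) in
/-- coboundary of a basis element -/
noncomputable def cod {k : ℕ} (q : Q R k) : Q R (k + 1) →₀ 𝕜 :=
  ∑ v ∈ univ.filter (· ∉ q.1.1), sg 𝕜 v q.1.1 • e R 𝕜 (k + 1) (insert v q.1.1) q.1.2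

include hirr in
/-- adjointness -/
lemma cod_apply {k : ℕ} (q : Q R k) (q' : Q R (k + 1)) : cod 𝕜 q q' = (dB q') q := by
  classical
  rw [← toF_of_mem (dB q') q, toF_dB hirr]
  unfold cod bd
  rw [Finsupp.finsetSum_apply]
  refine Finset.sum_congr rfl fun v hv => ?_
  rw [Finsupp.smul_apply, smul_eq_mul]
  congr 1
  rw [toF_single hirr]
  by_cases h : Clq adj (insert v q.1.1) ∧ (insert v q.1.1).card = k + 1
  · rw [e_eq hirr h.1 h.2]
    by_cases h2 : q'.1.1 = insert v q.1.1 ∧ rep R (insert v q.1.1) q.1.2 = q'.1.2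
    · rw [if_pos h2]
      have : (⟨(insert v q.1.1, rep R (insert v q.1.1) q.1.2), h.1, h.2,
        fun _ hv => rep_chi hirr h.1 _ hv⟩ : Q R (k + 1)) = q' := Q_ext h2.1.symm h2.2
      rw [this, Finsupp.single_eq_same]
    · rw [if_neg h2, Finsupp.single_eq_of_ne]
      intro h3
      apply h2
      rw [h3]
      exact ⟨rfl, rfl⟩
  · rw [e_zero h, if_neg]
    · rfl
    · intro h2
      apply h
      rw [← h2.1]
      exact ⟨q'.2.1, q'.2.2.1⟩

variable (R 𝕜) in
/-- coboundary of compactly supported cochains -/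
noncomputable def dlt (k : ℕ) : (Q R k →₀ 𝕜) →ₗ[𝕜] (Q R (k + 1) →₀ 𝕜) :=
  Finsupp.linearCombination 𝕜 (cod 𝕜)

lemma dlt_single {k : ℕ} (q : Q R k) (c : 𝕜) :
    dlt R 𝕜 k (Finsupp.single q c) = c • cod 𝕜 q := by
  unfold dlt
  rw [Finsupp.linearCombination_single]

include hirr in
lemma dlt_apply {k : ℕ} (ψ : Q R k →₀ 𝕜) (q' : Q R (k + 1)) :
    dlt R 𝕜 k ψ q' = Finsupp.linearCombination 𝕜 ψ (dB q') := by
  induction ψ using Finsupp.induction_linear with
  | zero =>
    rw [map_zero, Finsupp.linearCombination_apply]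
    simp
  | add x y hx hy =>
    rw [map_add, Finsupp.add_apply, hx, hy, Finsupp.linearCombination_apply,
      Finsupp.linearCombination_apply, Finsupp.linearCombination_apply, ← Finsupp.sum_add]
    simp [mul_add]
  | single q c =>
    rw [dlt_single, Finsupp.smul_apply, cod_apply hirr, Finsupp.linearCombination_apply,
      Finsupp.sum, Finset.sum_eq_single q]
    · simp [mul_comm]
    · intro b _ hb
      rw [Finsupp.single_eq_of_ne hb, smul_zero]
    · intro h
      rw [Finsupp.notMem_support_iff.1 h, zero_smul]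

include hirr in
lemma dlt_e {k : ℕ} (σ : Finset V) (w : W) :
    dlt R 𝕜 k (e R 𝕜 k σ w) =
      ∑ v ∈ univ.filter (· ∉ σ), sg 𝕜 v σ • e R 𝕜 (k + 1) (insert v σ) w := by
  by_cases h : Clq adj σ ∧ σ.card = k
  · rw [e_eq hirr h.1 h.2, dlt_single, one_smul]
    unfold cod
    refine Finset.sum_congr rfl fun v _ => ?_
    congr 1
    exact e_rep hirr _ _ (subset_insert _ _) w
  · rw [e_zero h, map_zero]
    symm
    refine Finset.sum_eq_zero fun v hv => ?_
    rw [e_zero, smul_zero]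
    rintro ⟨h1, h2⟩
    simp only [mem_filter, mem_univ, true_and] at hv
    rw [card_insert_of_notMem hv] at h2
    exact h ⟨fun a ha b hb => h1 a (mem_insert_of_mem ha) b (mem_insert_of_mem hb), by omega⟩

variable (R) in
/-- functional defined by a function on simplices -/
noncomputable def fnl (k : ℕ) (a : Finset V → 𝕜) : (Q R k →₀ 𝕜) →ₗ[𝕜] 𝕜 :=
  Finsupp.linearCombination 𝕜 (fun q : Q R k => a q.1.1)

include hirr in
lemma fnl_e {k : ℕ} (a : Finset V → 𝕜) {σ : Finset V} (h1 : Clq adj σ) (h2 : σ.card = k) (w : W) :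
    fnl R k a (e R 𝕜 k σ w) = a σ := by
  unfold fnl
  rw [e_eq hirr h1 h2, Finsupp.linearCombination_single, one_smul]

include hirr in
/-- the functional of a cycle kills coboundaries -/
lemma fnl_dlt {k : ℕ} (a : Finset V → 𝕜)
    (ha : ∀ τ : Finset V, Clq adj τ → τ.card = k →
      ∑ v ∈ univ.filter (· ∉ τ), sg 𝕜 v τ * (open Classical in
        if Clq adj (insert v τ) then a (insert v τ) else 0) = 0) (ψ : Q R k →₀ 𝕜) :
    fnl R (k + 1) a (dlt R 𝕜 k ψ) = 0 := by
  classical
  induction ψ using Finsupp.induction_linear with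
  | zero => simp
  | add x y hx hy => rw [map_add, map_add, hx, hy, add_zero]
  | single q c =>
    rw [dlt_single, map_smul]
    have h1 : fnl R (k + 1) a (cod 𝕜 q) = 0 := by
      unfold cod
      rw [map_sum]
      rw [← ha q.1.1 q.2.1 q.2.2.1]
      refine Finset.sum_congr rfl fun v hv => ?_
      simp only [mem_filter, mem_univ, true_and] at hv
      rw [map_smul, smul_eq_mul]
      congr 1
      by_cases h : Clq adj (insert v q.1.1)
      · have hk : (insert v q.1.1).card = k + 1 := by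
          rw [card_insert_of_notMem hv, q.2.2.1]
        rw [fnl_e hirr a h hk, if_pos h]
      · rw [if_neg h, e_zero (fun h2 => h h2.1), map_zero]
    rw [h1, smul_zero]

end basis

section phiL

variable {Λ : Type} [Group Λ] (L : LData R Λ)

/-- function associated with an equivariant map -/
noncomputable def phiL {k : ℕ}
    (F : (permL L 𝕜 k).IntertwiningMap (Representation.ofMulAction 𝕜 Λ Λ)) : Q R k →₀ 𝕜 :=
  Finsupp.ofSupportFinite (@phi 𝕜 _ Λ _ (Q R k) (mact L k) F)
    (@phi_finite 𝕜 _ Λ _ (Q R k) (mact L k) (orb_finite L k) F)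

lemma phiL_apply {k : ℕ}
    (F : (permL L 𝕜 k).IntertwiningMap (Representation.ofMulAction 𝕜 Λ Λ)) (q : Q R k) :
    phiL L F q = (F (Finsupp.single q 1)).coeff 1 := rfl

lemma phiL_injective {k : ℕ}
    {F F' : (permL L 𝕜 k).IntertwiningMap (Representation.ofMulAction 𝕜 Λ Λ)}
    (h : phiL L F = phiL L F') : F = F' :=
  @phi_injective 𝕜 _ Λ _ (Q R k) (mact L k) F F' (funext fun q => DFunLike.congr_fun h q)

lemma phiL_surjective {k : ℕ} (ψ : Q R k →₀ 𝕜) :
    ∃ F : (permL L 𝕜 k).IntertwiningMap (Representation.ofMulAction 𝕜 Λ Λ), phiL L F = ψ := by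
  obtain ⟨F, hF⟩ := @phi_surjective 𝕜 _ Λ _ (Q R k) (mact L k) (fun g q h => act_free L g q h) ψ
  exact ⟨F, Finsupp.ext hF⟩

lemma coeff_one {k : ℕ}
    (F : (permL L 𝕜 k).IntertwiningMap (Representation.ofMulAction 𝕜 Λ Λ)) (x : Q R k →₀ 𝕜) :
    (F x).coeff 1 = Finsupp.linearCombination 𝕜 (phiL L F) x := by
  induction x using Finsupp.induction_linear with
  | zero => simp
  | add x y hx hy => rw [map_add, map_add, MonoidAlgebra.coeff_add, Finsupp.add_apply, hx, hy]
  | single q c =>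
    have h2 : Finsupp.single q c = c • Finsupp.single q (1 : 𝕜) := by simp
    rw [h2, map_smul, map_smul, Finsupp.linearCombination_single, one_smul, phiL_apply,
      MonoidAlgebra.coeff_smul, Finsupp.smul_apply]

include hirr in
lemma phiL_comp {k : ℕ}
    (F : (permL L 𝕜 k).IntertwiningMap (Representation.ofMulAction 𝕜 Λ Λ)) :
    phiL L (F.comp (delI L 𝕜 k)) = dlt R 𝕜 k (phiL L F) := by
  ext q
  rw [dlt_apply hirr, ← coeff_one, phiL_apply]
  congr 1
  change (F (del R k (Finsupp.single q 1))).coeff = _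
  rw [del_single, one_smul]

lemma phiL_add {k : ℕ}
    (F F' : (permL L 𝕜 k).IntertwiningMap (Representation.ofMulAction 𝕜 Λ Λ)) :
    phiL L (F + F') = phiL L F + phiL L F' := by
  ext q; rfl

lemma phiL_smul {k : ℕ} (c : 𝕜)
    (F : (permL L 𝕜 k).IntertwiningMap (Representation.ofMulAction 𝕜 Λ Λ)) :
    phiL L (c • F) = c • phiL L F := by
  ext q; rfl

end phiL

end Pool.Agent.H75.Davis
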