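import Pool.Agent.H75.Davis.Fin

/-!
# Exactness of the Davis complex
-/

namespace Pool.Agent.H75.Davis

open Finset

set_option linter.unusedSectionVars false

variable {V : Type} [Fintype V] [LinearOrder V] {adj : V → V → Prop} {W : Type} [Group W]
variable {R : RData V adj W}
variable {𝕜 : Type} [CommRing 𝕜]
variable (hirr : ∀ v, ¬ adj v v)

include hirr in
lemma del_del (k : ℕ) (x : Q R (k + 1 + 1) →₀ 𝕜) : del R k (del R (k + 1) x) = 0 := by
  apply toF_injective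
  rw [toF_del hirr, toF_del hirr, bd_bd]
  funext σ w
  rw [toF_zero]; rfl

lemma D_one (hone : R.len 1 = 0) (v : V) : ¬ R.D 1 v := by
  intro h
  have := R.len_lt 1 v h
  omega

lemma len_eq_zero {w : W} (h : R.len w = 0) : w = 1 := by
  by_contra hne
  obtain ⟨v, hv⟩ := R.D_nonempty w hne
  have := R.len_lt w v hv
  omega

lemma len_bound {k : ℕ} {f : Finset V → W → 𝕜} (hf : IsCh R k f) :
    ∃ n, ∀ w, n < R.len w → ∀ σ, f σ w = 0 := by
  obtain ⟨n, hn⟩ := (hf.fin.image R.len).bddAbove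
  refine ⟨n, fun w hw σ => ?_⟩
  by_contra h0
  have := hn ⟨w, ⟨σ, h0⟩, rfl⟩
  omega

lemma toF_sub {k : ℕ} (x y : Q R k →₀ 𝕜) (σ : Finset V) (w : W) :
    toF (x - y) σ w = toF x σ w - toF y σ w := by
  unfold toF
  split_ifs <;> simp

include hirr in
lemma exact_aux' [Nonempty V] (hone : R.len 1 = 0) (k : ℕ) (x : Q R k →₀ 𝕜)
    (hx : bd (toF x) = 0) :
    ∃ y : Q R (k + 1) →₀ 𝕜, ∀ w, w ≠ 1 → ∀ σ, toF (x - del R k y) σ w = 0 := by
  classical
  have hm : ∃ m : W → V, ∀ w, w ≠ 1 → R.D w (m w) := by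
    refine ⟨fun w => if h : w ≠ 1 then (R.D_nonempty w h).choose else Classical.arbitrary V, ?_⟩
    intro w h
    simp only [dif_pos h]
    exact (R.D_nonempty w h).choose_spec
  obtain ⟨m, hm⟩ := hm
  obtain ⟨n, hn⟩ := len_bound (toF_isCh hirr x)
  obtain ⟨g, hg, h⟩ := exact_aux m hm hone k n (toF x) (toF_isCh hirr x) hx hn
  refine ⟨ofF g hg, fun w hw σ => ?_⟩
  rw [toF_sub, toF_del hirr, toF_ofF hirr]
  have h1 : 0 < R.len w := by
    rcases Nat.eq_zero_or_pos (R.len w) with h0 | h0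
    · exact absurd (len_eq_zero h0) hw
    · exact h0
  rw [h w h1 σ, sub_self]

include hirr in
/-- exactness in positive degrees -/
lemma exact_pos [Nonempty V] (hone : R.len 1 = 0) (k : ℕ) (x : Q R (k + 1) →₀ 𝕜)
    (hx : del R k x = 0) : ∃ y : Q R (k + 1 + 1) →₀ 𝕜, del R (k + 1) y = x := by
  have h1 : bd (toF x) = 0 := by
    rw [← toF_del hirr, hx]
    funext σ w; rw [toF_zero]; rfl
  obtain ⟨y, hy⟩ := exact_aux' hirr hone (k + 1) x h1
  refine ⟨y, ?_⟩
  have h2 : x - del R (k + 1) y = 0 := by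
    apply toF_injective
    funext σ w
    rw [toF_zero]
    by_cases hw : w = 1
    · subst hw
      by_contra h0
      obtain ⟨hc, hk⟩ := (toF_isCh hirr (x - del R (k + 1) y)).supp σ 1 h0
      have hne : σ.Nonempty := by rw [← card_pos]; omega
      obtain ⟨v, hv⟩ := hne
      apply h0
      rw [← (toF_isCh hirr (x - del R (k + 1) y)).inv σ 1 v hv, one_mul]
      exact hy _ (s_ne_one v) σ
    · exact hy w hw σ
  exact (sub_eq_zero.1 h2).symm

/-- the sign of a vertex -/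
def sgn (𝕜 : Type) [CommRing 𝕜] (R : RData V adj W) (w : W) : 𝕜 := (((∏ v, R.χ v w : ℤˣ) : ℤ) : 𝕜)

lemma sgn_one : sgn 𝕜 R 1 = 1 := by simp [sgn]

lemma sgn_mul (w w' : W) : sgn 𝕜 R (w * w') = sgn 𝕜 R w * sgn 𝕜 R w' := by
  simp [sgn, Finset.prod_mul_distrib]

lemma sgn_s (v : V) : sgn 𝕜 R (R.s v) = -1 := by
  unfold sgn
  rw [Finset.prod_eq_single v]
  · rw [R.χ_self]; simp
  · intro u _ hu
    exact R.χ_ne u v hu
  · intro h; exact absurd (mem_univ v) h

/-- augmentation -/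
noncomputable def aug (𝕜 : Type) [CommRing 𝕜] (R : RData V adj W) : (Q R 0 →₀ 𝕜) →ₗ[𝕜] 𝕜 :=
  Finsupp.linearCombination 𝕜 (fun q : Q R 0 => sgn 𝕜 R q.1.2)

lemma aug_single (q : Q R 0) (c : 𝕜) : aug 𝕜 R (Finsupp.single q c) = c * sgn 𝕜 R q.1.2 := by
  simp [aug]

lemma aug_dB (q : Q R (0 + 1)) : aug 𝕜 R (dB q) = 0 := by
  unfold dB
  rw [map_sum]
  refine Finset.sum_eq_zero fun v _ => ?_
  rw [map_smul, map_add, aug_single, aug_single]
  change sg 𝕜 v.1 q.1.1 • (1 * sgn 𝕜 R q.1.2 + 1 * sgn 𝕜 R (q.1.2 * R.s v.1)) = 0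
  rw [sgn_mul, sgn_s]
  simp

lemma aug_del (x : Q R (0 + 1) →₀ 𝕜) : aug 𝕜 R (del R 0 x) = 0 := by
  induction x using Finsupp.induction_linear with
  | zero => simp
  | add x y hx hy => rw [map_add, map_add, hx, hy, add_zero]
  | single q c => rw [del_single, map_smul, aug_dB, smul_zero]

variable (R)
/-- base vertex -/
def q0 : Q R 0 := ⟨(∅, 1), by
  refine ⟨?_, rfl, ?_⟩
  · intro a ha; exact absurd ha (notMem_empty a)
  · intro a ha; exact absurd ha (notMem_empty a)⟩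
variable {R}

include hirr in
/-- exactness in degree zero -/
lemma exact_zero [Nonempty V] (hone : R.len 1 = 0) (x : Q R 0 →₀ 𝕜)
    (hx : aug 𝕜 R x = 0) : ∃ y : Q R (0 + 1) →₀ 𝕜, del R 0 y = x := by
  have h1 : bd (toF x) = 0 := by
    funext τ w
    unfold bd
    refine Finset.sum_eq_zero fun v hv => ?_
    have : toF x (insert v τ) w = 0 := by
      by_contra h0
      have := ((toF_isCh hirr x).supp _ _ h0).2
      have h2 : (insert v τ).Nonempty := insert_nonempty _ _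
      rw [← card_pos] at h2
      omega
    rw [this, mul_zero]
  obtain ⟨y, hy⟩ := exact_aux' hirr hone 0 x h1
  refine ⟨y, ?_⟩
  set z := x - del R 0 y with hz
  have h2 : z = Finsupp.single (q0 R) (z (q0 R)) := by
    ext q
    by_cases hq : q = q0 R
    · rw [hq, Finsupp.single_eq_same]
    · rw [Finsupp.single_eq_of_ne hq, ← toF_of_mem]
      apply hy
      intro h
      apply hq
      refine Q_ext ?_ h
      exact card_eq_zero.1 q.2.2.1
  have h3 : aug 𝕜 R z = 0 := by rw [hz, map_sub, hx, aug_del, sub_zero]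
  rw [h2, aug_single] at h3
  have h4 : sgn 𝕜 R (q0 R).1.2 = 1 := sgn_one
  rw [h4, mul_one] at h3
  rw [h3, Finsupp.single_zero] at h2
  exact (sub_eq_zero.1 (hz ▸ h2)).symm

lemma aug_surj : Function.Surjective (aug 𝕜 R) := by
  intro c
  refine ⟨Finsupp.single (q0 R) c, ?_⟩
  rw [aug_single]
  have h4 : sgn 𝕜 R (q0 R).1.2 = 1 := sgn_one
  rw [h4, mul_one]

end Pool.Agent.H75.Davis
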