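import Mathlib

/-!
# Finiteness properties of modules
-/

namespace Pool.Agent.H75.Davis

section

variable (S : Type) [Ring S]

/-- splitting of a surjection onto a projective module -/
lemma split_equiv {S : Type} [Ring S] {P F : Type} [AddCommGroup P] [AddCommGroup F] [Module S P]
    [Module S F] [Module.Projective S F] (g : P →ₗ[S] F) (hg : Function.Surjective g) :
    Nonempty (P ≃ₗ[S] (LinearMap.ker g × F)) := by
  obtain ⟨l, hl⟩ := Module.projective_lifting_property g LinearMap.id hg
  have hl' : ∀ y, g (l y) = y := fun y => LinearMap.congr_fun hl y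
  refine ⟨LinearEquiv.ofLinearMap
    (LinearMap.prod (LinearMap.codRestrict _ (LinearMap.id - l ∘ₗ g) (fun x => ?_)) g)
    (LinearMap.coprod (LinearMap.ker g).subtype l) ?_ ?_⟩
  · simp [hl']
  · refine LinearMap.ext fun x => ?_
    obtain ⟨⟨k, hk⟩, y⟩ := x
    have hk' : g k = 0 := hk
    refine Prod.ext (Subtype.ext ?_) ?_
    · simp [hk', hl']
    · simp [hk', hl']
  · refine LinearMap.ext fun x => ?_
    simp

/-- `FPn S n M`: `M` has a resolution by projectives which are finitely generated up to degree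
`n`. -/
def FPn : ℕ → ∀ (M : Type) [AddCommGroup M] [Module S M], Prop
  | 0, M, _, _ => Module.Finite S M
  | n + 1, M, _, _ => ∃ (F : Type) (_ : AddCommGroup F) (_ : Module S F),
      Module.Finite S F ∧ Module.Projective S F ∧
      ∃ f : F →ₗ[S] M, Function.Surjective f ∧ FPn n (LinearMap.ker f)

variable {S}

lemma FPn.equiv {n : ℕ} : ∀ {M N : Type} [AddCommGroup M] [Module S M] [AddCommGroup N]
    [Module S N] (_ : M ≃ₗ[S] N), FPn S n M → FPn S n N := by
  cases n with
  | zero =>
    intro M N _ _ _ _ e h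
    have : Module.Finite S M := h
    exact Module.Finite.equiv e
  | succ n =>
    intro M N _ _ _ _ e h
    obtain ⟨F, _, _, h1, h2, f, hf, h3⟩ := h
    refine ⟨F, _, _, h1, h2, e.toLinearMap ∘ₗ f, e.surjective.comp hf, ?_⟩
    rw [LinearEquiv.ker_comp]
    exact h3

/-- kernels of product maps -/
noncomputable def kerProdEquiv {F0 M F : Type} [AddCommGroup F0] [Module S F0] [AddCommGroup M]
    [Module S M] [AddCommGroup F] [Module S F] (f : F0 →ₗ[S] M) :
    LinearMap.ker f ≃ₗ[S] LinearMap.ker (f.prodMap (LinearMap.id : F →ₗ[S] F)) :=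
  LinearEquiv.ofBijective
    (LinearMap.codRestrict _ ((LinearMap.inl S F0 F) ∘ₗ (LinearMap.ker f).subtype)
      (fun x => by simp))
    ⟨fun x y h => by
      have h1 := congrArg Subtype.val h
      have h2 := congrArg Prod.fst h1
      exact Subtype.ext h2, fun y => by
      obtain ⟨⟨a, b⟩, hy⟩ := y
      have h1 : f a = 0 := (Prod.ext_iff.1 hy).1
      have h2 : b = 0 := (Prod.ext_iff.1 hy).2
      refine ⟨⟨a, h1⟩, Subtype.ext (Prod.ext rfl h2.symm)⟩⟩

lemma FPn.prod {n : ℕ} {M F : Type} [AddCommGroup M] [Module S M] [AddCommGroup F]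
    [Module S F] [Module.Finite S F] [Module.Projective S F] (h : FPn S n M) :
    FPn S n (M × F) := by
  cases n with
  | zero =>
    have : Module.Finite S M := h
    exact (inferInstance : Module.Finite S (M × F))
  | succ n =>
    obtain ⟨F0, _, _, h1, h2, f, hf, h3⟩ := h
    refine ⟨F0 × F, _, _, inferInstance, inferInstance, f.prodMap LinearMap.id,
      hf.prodMap Function.surjective_id, ?_⟩
    exact FPn.equiv (kerProdEquiv f) h3

lemma FPn.of_prod {n : ℕ} {M F : Type} [AddCommGroup M] [Module S M] [AddCommGroup F]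
    [Module S F] [Module.Finite S F] [Module.Projective S F] (h : FPn S n (M × F)) :
    FPn S n M := by
  cases n with
  | zero =>
    have : Module.Finite S (M × F) := h
    exact Module.Finite.of_surjective (LinearMap.fst S M F) LinearMap.fst_surjective
  | succ n =>
    obtain ⟨F0, _, _, h1, h2, g, hg, h3⟩ := h
    refine ⟨F0, _, _, h1, h2, LinearMap.fst S M F ∘ₗ g,
      fun x => ?_, ?_⟩
    · obtain ⟨y, hy⟩ := hg (x, 0)
      exact ⟨y, by simp [hy]⟩
    -- the kernel `K'` maps onto `F` with kernel `ker g`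
    let p : LinearMap.ker (LinearMap.fst S M F ∘ₗ g) →ₗ[S] F :=
      LinearMap.snd S M F ∘ₗ g ∘ₗ (LinearMap.ker (LinearMap.fst S M F ∘ₗ g)).subtype
    have hp : Function.Surjective p := by
      intro y
      obtain ⟨x, hx⟩ := hg (0, y)
      refine ⟨⟨x, by simp [LinearMap.mem_ker, hx]⟩, by simp [p, hx]⟩
    obtain ⟨e⟩ := split_equiv p hp
    have e2 : LinearMap.ker g ≃ₗ[S] LinearMap.ker p :=
      LinearEquiv.ofBijective
        (LinearMap.codRestrict _ (LinearMap.codRestrict _ (LinearMap.ker g).subtype
          (fun x => by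
            have := x.2
            rw [LinearMap.mem_ker] at this
            simp [LinearMap.mem_ker, this])) (fun x => by
            have := x.2
            rw [LinearMap.mem_ker] at this
            rw [LinearMap.mem_ker]
            change (g (x : F0)).2 = 0
            rw [this]; rfl))
        ⟨fun x y h => by
          have h1 := congrArg Subtype.val (congrArg Subtype.val h)
          exact Subtype.ext h1, fun y => by
          obtain ⟨⟨a, ha⟩, hy⟩ := y
          have h1 : (g a).1 = 0 := ha
          have h2 : (g a).2 = 0 := hy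
          exact ⟨⟨a, Prod.ext h1 h2⟩, rfl⟩⟩
    exact FPn.equiv e.symm (FPn.prod (FPn.equiv e2 h3))

/-- Schanuel's lemma -/
lemma schanuel {M F F' : Type} [AddCommGroup M] [Module S M] [AddCommGroup F]
    [Module S F] [AddCommGroup F'] [Module S F'] [Module.Projective S F] [Module.Projective S F']
    (f : F →ₗ[S] M) (f' : F' →ₗ[S] M) (hf : Function.Surjective f)
    (hf' : Function.Surjective f') :
    Nonempty ((LinearMap.ker f × F') ≃ₗ[S] (LinearMap.ker f' × F)) := by
  let P := LinearMap.eqLocus (f ∘ₗ LinearMap.fst S F F') (f' ∘ₗ LinearMap.snd S F F')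
  let p1 : P →ₗ[S] F := LinearMap.fst S F F' ∘ₗ P.subtype
  let p2 : P →ₗ[S] F' := LinearMap.snd S F F' ∘ₗ P.subtype
  have h1 : Function.Surjective p1 := by
    intro x
    obtain ⟨y, hy⟩ := hf' (f x)
    exact ⟨⟨(x, y), hy.symm⟩, rfl⟩
  have h2 : Function.Surjective p2 := by
    intro y
    obtain ⟨x, hx⟩ := hf (f' y)
    exact ⟨⟨(x, y), hx⟩, rfl⟩
  obtain ⟨e1⟩ := split_equiv p1 h1
  obtain ⟨e2⟩ := split_equiv p2 h2
  have k1 : LinearMap.ker f' ≃ₗ[S] LinearMap.ker p1 :=
    LinearEquiv.ofBijective
      (LinearMap.codRestrict _ (LinearMap.codRestrict P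
        (LinearMap.inr S F F' ∘ₗ (LinearMap.ker f').subtype) (fun x => by
          have := x.2
          rw [LinearMap.mem_ker] at this
          simp [P, LinearMap.mem_eqLocus, this])) (fun x => by
          rw [LinearMap.mem_ker]; rfl))
      ⟨fun x y h => by
        have h1 := congrArg Subtype.val (congrArg Subtype.val h)
        have h2 := congrArg Prod.snd h1
        exact Subtype.ext h2, fun y => by
        obtain ⟨⟨⟨a, b⟩, hab⟩, hy⟩ := y
        have ha : a = 0 := hy
        subst ha
        have hb : f 0 = f' b := hab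
        rw [map_zero] at hb
        exact ⟨⟨b, hb.symm⟩, rfl⟩⟩
  have k2 : LinearMap.ker f ≃ₗ[S] LinearMap.ker p2 :=
    LinearEquiv.ofBijective
      (LinearMap.codRestrict _ (LinearMap.codRestrict P
        (LinearMap.inl S F F' ∘ₗ (LinearMap.ker f).subtype) (fun x => by
          have := x.2
          rw [LinearMap.mem_ker] at this
          simp [P, LinearMap.mem_eqLocus, this])) (fun x => by
          rw [LinearMap.mem_ker]; rfl))
      ⟨fun x y h => by
        have h1 := congrArg Subtype.val (congrArg Subtype.val h)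
        have h2 := congrArg Prod.fst h1
        exact Subtype.ext h2, fun y => by
        obtain ⟨⟨⟨a, b⟩, hab⟩, hy⟩ := y
        have hb : b = 0 := hy
        subst hb
        have ha : f a = f' 0 := hab
        rw [map_zero] at ha
        exact ⟨⟨a, ha⟩, rfl⟩⟩
  exact ⟨(k2.prodCongr (LinearEquiv.refl S F')).trans (e2.symm.trans
    (e1.trans (k1.symm.prodCongr (LinearEquiv.refl S F))))⟩

lemma FPn.ker {n : ℕ} {M F : Type} [AddCommGroup M] [Module S M] [AddCommGroup F]
    [Module S F] [Module.Finite S F] [Module.Projective S F] (h : FPn S (n + 1) M)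
    (f : F →ₗ[S] M) (hf : Function.Surjective f) : FPn S n (LinearMap.ker f) := by
  obtain ⟨F', _, _, h1, h2, f', hf', h3⟩ := h
  obtain ⟨e⟩ := schanuel f f' hf hf'
  exact FPn.of_prod (F := F') (FPn.equiv e.symm (FPn.prod h3))

lemma FPn.finite {n : ℕ} {M : Type} [AddCommGroup M] [Module S M] (h : FPn S n M) :
    Module.Finite S M := by
  cases n with
  | zero => exact h
  | succ n =>
    obtain ⟨F, _, _, h1, h2, f, hf, h3⟩ := h
    exact Module.Finite.of_surjective f hf

/-- Building `FPn` from a resolution step. -/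
lemma FPn.step {n : ℕ} {A B : Type} [AddCommGroup A] [Module S A] [AddCommGroup B]
    [Module S B] [Module.Finite S A] [Module.Projective S A] (d : A →ₗ[S] B)
    (h : FPn S n (LinearMap.ker d)) : FPn S (n + 1) (LinearMap.range d) := by
  refine ⟨A, _, _, inferInstance, inferInstance, d.rangeRestrict, d.surjective_rangeRestrict, ?_⟩
  rw [LinearMap.ker_rangeRestrict]
  exact h

/-- the standard form of `FP_3` -/
theorem fp3_standard {M : Type} [AddCommGroup M] [Module S M] (h : FPn S 3 M)
    (p : S →ₗ[S] M) (hp : Function.Surjective p) :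
    ∃ (r1 r2 r3 : ℕ) (d1 : (Fin r1 → S) →ₗ[S] S) (d2 : (Fin r2 → S) →ₗ[S] (Fin r1 → S))
      (d3 : (Fin r3 → S) →ₗ[S] (Fin r2 → S)),
      LinearMap.range d1 = LinearMap.ker p ∧ LinearMap.range d2 = LinearMap.ker d1 ∧
      LinearMap.range d3 = LinearMap.ker d2 := by
  have h1 : FPn S 2 (LinearMap.ker p) := FPn.ker h p hp
  have f1 := h1.finite
  obtain ⟨r1, s1, hs1⟩ := Module.Finite.exists_fin' S (LinearMap.ker p)
  have h2 : FPn S 1 (LinearMap.ker s1) := FPn.ker h1 s1 hs1
  have f2 := h2.finite
  obtain ⟨r2, s2, hs2⟩ := Module.Finite.exists_fin' S (LinearMap.ker s1)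
  have h3 : FPn S 0 (LinearMap.ker s2) := FPn.ker h2 s2 hs2
  have f3 := h3.finite
  obtain ⟨r3, s3, hs3⟩ := Module.Finite.exists_fin' S (LinearMap.ker s2)
  refine ⟨r1, r2, r3, (LinearMap.ker p).subtype ∘ₗ s1, (LinearMap.ker s1).subtype ∘ₗ s2,
    (LinearMap.ker s2).subtype ∘ₗ s3, ?_, ?_, ?_⟩
  · rw [LinearMap.range_comp, LinearMap.range_eq_top.2 hs1, Submodule.map_top,
      Submodule.range_subtype]
  · rw [LinearMap.range_comp, LinearMap.range_eq_top.2 hs2, Submodule.map_top,
      Submodule.range_subtype, LinearMap.ker_comp, Submodule.ker_subtype, Submodule.comap_bot]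
  · rw [LinearMap.range_comp, LinearMap.range_eq_top.2 hs3, Submodule.map_top,
      Submodule.range_subtype, LinearMap.ker_comp, Submodule.ker_subtype, Submodule.comap_bot]

end

end Pool.Agent.H75.Davis
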