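import Pool.Agent.H75.Davis.Res
import Pool.Agent.H75.Davis.FP

/-!
# Type `FP_3`
-/

namespace Pool.Agent.H75.Davis

open CategoryTheory Finset

set_option linter.unusedSectionVars false

section aug

variable (Λ : Type) [Group Λ] (𝕜 : Type) [CommRing 𝕜]

/-- module over the group ring attached to a representation -/
def RM {Λ 𝕜 : Type} [Group Λ] [CommRing 𝕜] {M : Type} [AddCommGroup M] [Module 𝕜 M]
    (_ : Representation 𝕜 Λ M) : Type := M

variable {Λ 𝕜} in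
instance {M : Type} [AddCommGroup M] [Module 𝕜 M] (ρ : Representation 𝕜 Λ M) :
    AddCommGroup (RM ρ) := inferInstanceAs (AddCommGroup M)

variable {Λ 𝕜} in
noncomputable instance {M : Type} [AddCommGroup M] [Module 𝕜 M] (ρ : Representation 𝕜 Λ M) :
    Module (MonoidAlgebra 𝕜 Λ) (RM ρ) := Module.compHom M ρ.asAlgebraHom.toRingHom

variable {Λ 𝕜} in
lemma RM_smul {M : Type} [AddCommGroup M] [Module 𝕜 M] (ρ : Representation 𝕜 Λ M)
    (x : MonoidAlgebra 𝕜 Λ) (m : M) :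
    (x • (show RM ρ from m) : RM ρ) = ρ.asAlgebraHom x m := rfl

variable {Λ 𝕜} in
/-- identity as additive equivalence of modules -/
noncomputable def RMe {M : Type} [AddCommGroup M] [Module 𝕜 M] (ρ : Representation 𝕜 Λ M) :
    ρ.asModule ≃ₗ[MonoidAlgebra 𝕜 Λ] RM ρ where
  toFun x := x
  invFun x := x
  map_add' _ _ := rfl
  map_smul' _ _ := rfl
  left_inv _ := rfl
  right_inv _ := rfl

variable {Λ 𝕜} in
/-- linear map over the group ring of an intertwining map -/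
noncomputable def RMmap {M N : Type} [AddCommGroup M] [Module 𝕜 M] [AddCommGroup N] [Module 𝕜 N]
    {ρ : Representation 𝕜 Λ M} {σ : Representation 𝕜 Λ N} (f : ρ.IntertwiningMap σ) :
    RM ρ →ₗ[MonoidAlgebra 𝕜 Λ] RM σ where
  toFun x := f.toLinearMap x
  map_add' x y := f.toLinearMap.map_add x y
  map_smul' c x := (Representation.IntertwiningMap.equivLinearMapAsModule _ _ f).map_smul c x

variable {Λ 𝕜} in
lemma RMmap_apply {M N : Type} [AddCommGroup M] [Module 𝕜 M] [AddCommGroup N] [Module 𝕜 N]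
    {ρ : Representation 𝕜 Λ M} {σ : Representation 𝕜 Λ N} (f : ρ.IntertwiningMap σ) (x : M) :
    RMmap f (show RM ρ from x) = f.toLinearMap x := rfl

/-- the trivial module -/
abbrev TM : Type := RM (Representation.trivial 𝕜 Λ 𝕜)

/-- augmentation of the group ring -/
noncomputable def augS : MonoidAlgebra 𝕜 Λ →ₗ[MonoidAlgebra 𝕜 Λ] TM Λ 𝕜 :=
  LinearMap.toSpanSingleton _ _ (show TM Λ 𝕜 from (1 : 𝕜))

lemma augS_single (g : Λ) (c : 𝕜) :
    augS Λ 𝕜 (MonoidAlgebra.single g c) = (show TM Λ 𝕜 from c) := by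
  unfold augS
  rw [LinearMap.toSpanSingleton_apply]
  refine (RM_smul (Representation.trivial 𝕜 Λ 𝕜) (MonoidAlgebra.single g c) (1 : 𝕜)).trans ?_
  rw [Representation.asAlgebraHom_single]
  change c • (1 : 𝕜) = c
  rw [smul_eq_mul, mul_one]

lemma augS_surj : Function.Surjective (augS Λ 𝕜) := by
  intro c
  refine ⟨MonoidAlgebra.single 1 (show 𝕜 from c), ?_⟩
  rw [augS_single]

lemma augS_ker : LinearMap.ker (augS Λ 𝕜) = Submodule.span (MonoidAlgebra 𝕜 Λ)
    (Set.range (fun g : Λ => MonoidAlgebra.of 𝕜 Λ g - 1)) := by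
  apply le_antisymm
  · have key : ∀ x : MonoidAlgebra 𝕜 Λ, x - MonoidAlgebra.single 1
        (show 𝕜 from (augS Λ 𝕜 x)) ∈
        Submodule.span (MonoidAlgebra 𝕜 Λ)
        (Set.range (fun g : Λ => MonoidAlgebra.of 𝕜 Λ g - 1)) := by
      intro x
      induction x using MonoidAlgebra.induction_linear with
      | zero =>
        rw [map_zero]
        have : (MonoidAlgebra.single (1 : Λ) (show 𝕜 from (0 : TM Λ 𝕜)) : MonoidAlgebra 𝕜 Λ) = 0 :=
          MonoidAlgebra.single_zero _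
        rw [this, sub_zero]
        exact Submodule.zero_mem _
      | add x y hx hy =>
        have := Submodule.add_mem _ hx hy
        rw [map_add]
        have h2 : (MonoidAlgebra.single (1 : Λ) (show 𝕜 from (augS Λ 𝕜 x + augS Λ 𝕜 y)) :
          MonoidAlgebra 𝕜 Λ) = MonoidAlgebra.single 1 (show 𝕜 from (augS Λ 𝕜 x)) +
            MonoidAlgebra.single 1 (show 𝕜 from (augS Λ 𝕜 y)) :=
          MonoidAlgebra.single_add _ _ _
        rw [h2]
        convert this using 1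
        abel
      | single g c =>
        rw [augS_single]
        have h1 : MonoidAlgebra.single g c - MonoidAlgebra.single 1 c =
            (MonoidAlgebra.single (1 : Λ) c : MonoidAlgebra 𝕜 Λ) • (MonoidAlgebra.of 𝕜 Λ g - 1) := by
          rw [smul_eq_mul, mul_sub, mul_one, MonoidAlgebra.of_apply,
            MonoidAlgebra.single_mul_single, one_mul, mul_one]
        change MonoidAlgebra.single g c - MonoidAlgebra.single 1 c ∈ _
        rw [h1]
        exact Submodule.smul_mem _ _ (Submodule.subset_span ⟨g, rfl⟩)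
    intro x hx
    have h1 := key x
    have h2 : augS Λ 𝕜 x = 0 := hx
    rw [h2] at h1
    have h3 : (MonoidAlgebra.single (1 : Λ) (show 𝕜 from (0 : TM Λ 𝕜)) : MonoidAlgebra 𝕜 Λ) = 0 :=
      MonoidAlgebra.single_zero _
    rw [h3, sub_zero] at h1
    exact h1
  · rw [Submodule.span_le]
    rintro _ ⟨g, rfl⟩
    change augS Λ 𝕜 (MonoidAlgebra.of 𝕜 Λ g - 1) = 0
    rw [map_sub, MonoidAlgebra.of_apply, augS_single, MonoidAlgebra.one_def, augS_single, sub_self]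

end aug

variable {V : Type} [Fintype V] [LinearOrder V] {adj : V → V → Prop} {W : Type} [Group W]
variable {R : RData V adj W}
variable {Λ : Type} [Group Λ] (L : LData R Λ) {𝕜 : Type} [CommRing 𝕜]

variable (𝕜) in
/-- chain modules -/
abbrev CM (k : ℕ) : Type := RM (permL L 𝕜 k)

lemma CM_proj (k : ℕ) : Module.Projective (MonoidAlgebra 𝕜 Λ) (CM L 𝕜 k) := by
  have : Module.Projective (MonoidAlgebra 𝕜 Λ) (permL L 𝕜 k).asModule :=
    @perm_mod_projective 𝕜 _ Λ _ (Q R k) (mact L k) (fun g q h => act_free L g q h)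
  exact Module.Projective.of_equiv (RMe (permL L 𝕜 k))

lemma CM_fin (k : ℕ) : Module.Finite (MonoidAlgebra 𝕜 Λ) (CM L 𝕜 k) := by
  have : Module.Finite (MonoidAlgebra 𝕜 Λ) (permL L 𝕜 k).asModule :=
    @perm_mod_finite 𝕜 _ Λ _ (Q R k) (mact L k) (fun g q h => act_free L g q h)
      (orb_finite L k)
  exact Module.Finite.equiv (RMe (permL L 𝕜 k))

variable (𝕜) in
/-- boundary maps -/
noncomputable def dM (k : ℕ) : CM L 𝕜 (k + 1) →ₗ[MonoidAlgebra 𝕜 Λ] CM L 𝕜 k :=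
  RMmap (delI L 𝕜 k)

variable (𝕜) in
/-- augmentation -/
noncomputable def aM : CM L 𝕜 0 →ₗ[MonoidAlgebra 𝕜 Λ] TM Λ 𝕜 :=
  RMmap (augI L 𝕜)

variable (hirr : ∀ v, ¬ adj v v) [Nonempty V] (hone : R.len 1 = 0)

include hirr hone in
lemma dM_exact (k : ℕ) : LinearMap.range (dM L 𝕜 (k + 1)) = LinearMap.ker (dM L 𝕜 k) := by
  apply le_antisymm
  · rintro _ ⟨x, rfl⟩
    exact del_del hirr k x
  · intro x hx
    obtain ⟨y, hy⟩ := exact_pos hirr hone k x hx
    exact ⟨y, hy⟩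

include hirr hone in
lemma aM_exact : LinearMap.range (dM L 𝕜 0) = LinearMap.ker (aM L 𝕜) := by
  apply le_antisymm
  · rintro _ ⟨x, rfl⟩
    exact aug_del (R := R) (𝕜 := 𝕜) x
  · intro x hx
    obtain ⟨y, hy⟩ := exact_zero (R := R) (𝕜 := 𝕜) hirr hone x hx
    exact ⟨y, hy⟩

lemma aM_surj : Function.Surjective (aM L 𝕜) := aug_surj (R := R) (𝕜 := 𝕜)

include L hirr hone in
lemma fpn3 : FPn (MonoidAlgebra 𝕜 Λ) 3 (TM Λ 𝕜) := by
  have := CM_fin L (𝕜 := 𝕜) 0
  have := CM_fin L (𝕜 := 𝕜) 1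
  have := CM_fin L (𝕜 := 𝕜) 2
  have := CM_fin L (𝕜 := 𝕜) 3
  have := CM_proj L (𝕜 := 𝕜) 0
  have := CM_proj L (𝕜 := 𝕜) 1
  have := CM_proj L (𝕜 := 𝕜) 2
  have h0 : FPn (MonoidAlgebra 𝕜 Λ) 0 (LinearMap.ker (dM L 𝕜 1)) := by
    rw [← dM_exact L hirr hone 1]
    exact Module.Finite.range (dM L 𝕜 2)
  have h1 := FPn.step (dM L 𝕜 1) h0
  rw [dM_exact L hirr hone 0] at h1
  have h2 := FPn.step (dM L 𝕜 0) h1
  rw [aM_exact L hirr hone] at h2
  have h3 := FPn.step (aM L 𝕜) h2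
  exact FPn.equiv (LinearEquiv.ofTop _ (LinearMap.range_eq_top.2 (aM_surj L))) h3

include L hirr hone in
theorem fp3 : ∃ (r1 r2 r3 : ℕ)
    (d1 : (Fin r1 → MonoidAlgebra 𝕜 Λ) →ₗ[MonoidAlgebra 𝕜 Λ] MonoidAlgebra 𝕜 Λ)
    (d2 : (Fin r2 → MonoidAlgebra 𝕜 Λ) →ₗ[MonoidAlgebra 𝕜 Λ] (Fin r1 → MonoidAlgebra 𝕜 Λ))
    (d3 : (Fin r3 → MonoidAlgebra 𝕜 Λ) →ₗ[MonoidAlgebra 𝕜 Λ] (Fin r2 → MonoidAlgebra 𝕜 Λ)),
    LinearMap.range d1 = Submodule.span (MonoidAlgebra 𝕜 Λ)
      (Set.range (fun g : Λ => MonoidAlgebra.of 𝕜 Λ g - 1)) ∧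
    LinearMap.range d2 = LinearMap.ker d1 ∧
    LinearMap.range d3 = LinearMap.ker d2 := by
  rw [← augS_ker]
  exact fp3_standard (fpn3 L hirr hone) (augS Λ 𝕜) (augS_surj Λ 𝕜)

end Pool.Agent.H75.Davis
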