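import Pool.Agent.H75.Davis.Chain

/-!
# The Davis complex as complex of finitely supported functions on cubes
-/

namespace Pool.Agent.H75.Davis

open Finset

set_option linter.unusedSectionVars false

variable {V : Type} [Fintype V] [LinearOrder V] {adj : V → V → Prop} {W : Type} [Group W]
variable {R : RData V adj W}
variable {𝕜 : Type} [CommRing 𝕜]

lemma chi_cases (v : V) (w : W) : R.χ v w = 1 ∨ R.χ v w = -1 := Int.units_eq_one_or _

lemma s_ne_one (v : V) : R.s v ≠ 1 := by
  intro h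
  have := R.χ_self v
  rw [h, map_one] at this
  exact absurd this (by decide)

lemma chi_flip (w : W) (v : V) : R.χ v (w * R.s v) = 1 ↔ ¬ R.χ v w = 1 := by
  rw [map_mul, R.χ_self]
  rcases chi_cases (R := R) v w with h | h <;> rw [h] <;> decide

lemma chi_mul_ne (w : W) {u v : V} (h : u ≠ v) : R.χ v (w * R.s u) = R.χ v w := by
  rw [map_mul, R.χ_ne v u h.symm, mul_one]

variable (R)

/-- the normalised representative of the `σ`-cube of `w` -/
noncomputable def rep (σ : Finset V) (w : W) : W := nrm R.s (fun v w => R.χ v w = 1) σ.toList w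

variable {R}

section
variable (hirr : ∀ v, ¬ adj v v)

include hirr in
lemma rep_chi {σ : Finset V} (hσ : Clq adj σ) (w : W) {v : V} (hv : v ∈ σ) :
    R.χ v (rep R σ w) = 1 :=
  nrm_P (P := fun v w => R.χ v w = 1) (adj := adj) R.sq R.comm (fun w v => chi_flip w v)
    (fun w u v h => by
      have : u ≠ v := by rintro rfl; exact hirr _ h
      simp only [chi_mul_ne w this]) _ σ.nodup_toList (clq_list hσ) w v
    (Finset.mem_toList.2 hv)

include hirr in
lemma rep_mul {σ : Finset V} (hσ : Clq adj σ) (w : W) {v : V} (hv : v ∈ σ) :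
    rep R σ (w * R.s v) = rep R σ w :=
  nrm_mul (P := fun v w => R.χ v w = 1) (adj := adj) R.sq R.comm (fun w v => chi_flip w v)
    (fun w u v h => by
      have : u ≠ v := by rintro rfl; exact hirr _ h
      simp only [chi_mul_ne w this]) _ σ.nodup_toList (clq_list hσ) w v
    (Finset.mem_toList.2 hv)

lemma rep_self (σ : Finset V) (w : W) (h : ∀ v ∈ σ, R.χ v w = 1) : rep R σ w = w :=
  nrm_self _ _ (fun v hv => h v (Finset.mem_toList.1 hv))

lemma rep_inv {α : Type} (f : W → α) (σ : Finset V) (hf : ∀ v ∈ σ, ∀ w, f (w * R.s v) = f w)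
    (w : W) : f (rep R σ w) = f w :=
  nrm_inv f _ (fun v hv => hf v (Finset.mem_toList.1 hv)) w

include hirr in
/-- the two halves of a cube -/
lemma rep_insert {τ : Finset V} {v : V} (hv : v ∉ τ) (hσ : Clq adj (insert v τ)) (u w : W)
    (hu : ∀ t ∈ insert v τ, R.χ t u = 1) :
    rep R (insert v τ) w = u ↔ (rep R τ w = u ∨ rep R τ w = u * R.s v) := by
  have hτ : Clq adj τ := fun a ha b hb => hσ a (mem_insert_of_mem ha) b (mem_insert_of_mem hb)
  have h1 : rep R (insert v τ) (rep R τ w) = rep R (insert v τ) w :=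
    rep_inv (fun w => rep R (insert v τ) w) τ
      (fun t ht w => rep_mul hirr hσ w (mem_insert_of_mem ht)) w
  constructor
  · intro h
    rw [← h1] at h
    by_cases hc : R.χ v (rep R τ w) = 1
    · left
      rw [← h]
      symm
      apply rep_self
      intro t ht
      rcases mem_insert.1 ht with rfl | ht'
      · exact hc
      · exact rep_chi hirr hτ w ht'
    · right
      have h2 : rep R (insert v τ) (rep R τ w * R.s v) = rep R τ w * R.s v := by
        apply rep_self
        intro t ht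
        rcases mem_insert.1 ht with rfl | ht'
        · exact (chi_flip _ _).2 hc
        · have : v ≠ t := by rintro rfl; exact hv ht'
          rw [chi_mul_ne _ this]
          exact rep_chi hirr hτ w ht'
      rw [rep_mul hirr hσ _ (mem_insert_self v τ), h] at h2
      rw [h2, mul_assoc, R.sq, mul_one]
  · rintro (h | h)
    · rw [← h1, h]; exact rep_self _ _ hu
    · rw [← h1, h, rep_mul hirr hσ _ (mem_insert_self v τ)]; exact rep_self _ _ hu

end

variable (R)

/-- The type of `k`-cubes. -/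
def QP (k : ℕ) (p : Finset V × W) : Prop := Clq adj p.1 ∧ p.1.card = k ∧ ∀ v ∈ p.1, R.χ v p.2 = 1

/-- The type of `k`-cubes. -/
abbrev Q (k : ℕ) : Type := {p : Finset V × W // QP R k p}

variable {R}

lemma Q_ext {k : ℕ} {q q' : Q R k} (h1 : q.1.1 = q'.1.1) (h2 : q.1.2 = q'.1.2) : q = q' :=
  Subtype.ext (Prod.ext h1 h2)

/-- from finitely supported functions to families -/
noncomputable def toF {k : ℕ} (x : Q R k →₀ 𝕜) (σ : Finset V) (w : W) : 𝕜 := by
  classical
  exact if h : QP R k (σ, rep R σ w) then x ⟨_, h⟩ else 0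

lemma toF_of_mem {k : ℕ} (x : Q R k →₀ 𝕜) (q : Q R k) : toF x q.1.1 q.1.2 = x q := by
  obtain ⟨⟨σ, w⟩, h1, h2, h3⟩ := q
  have h4 : rep R σ w = w := rep_self σ w h3
  unfold toF
  have h5 : QP R k (σ, rep R σ w) := by rw [h4]; exact ⟨h1, h2, h3⟩
  rw [dif_pos h5]
  exact congrArg x (Q_ext rfl h4)

lemma toF_injective {k : ℕ} : Function.Injective (toF (𝕜 := 𝕜) (R := R) (k := k)) := by
  intro x y h
  ext q
  rw [← toF_of_mem, ← toF_of_mem, h]

lemma toF_add {k : ℕ} (x y : Q R k →₀ 𝕜) (σ : Finset V) (w : W) :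
    toF (x + y) σ w = toF x σ w + toF y σ w := by
  unfold toF
  split_ifs <;> simp

lemma toF_smul {k : ℕ} (c : 𝕜) (x : Q R k →₀ 𝕜) (σ : Finset V) (w : W) :
    toF (c • x) σ w = c * toF x σ w := by
  unfold toF
  split_ifs <;> simp

lemma toF_zero {k : ℕ} (σ : Finset V) (w : W) : toF (0 : Q R k →₀ 𝕜) σ w = 0 := by
  unfold toF
  split_ifs <;> simp

lemma toF_sum {k : ℕ} {α : Type} (s : Finset α) (f : α → (Q R k →₀ 𝕜)) (σ : Finset V) (w : W) :
    toF (∑ a ∈ s, f a) σ w = ∑ a ∈ s, toF (f a) σ w := by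
  classical
  induction s using Finset.induction_on with
  | empty => simp [toF_zero]
  | insert a s ha ih => rw [Finset.sum_insert ha, toF_add, ih, Finset.sum_insert ha]

variable (hirr : ∀ v, ¬ adj v v)

include hirr in
lemma toF_eq {k : ℕ} (x : Q R k →₀ 𝕜) {σ : Finset V} (hσ : Clq adj σ) (hk : σ.card = k) (w : W) :
    toF x σ w = x ⟨(σ, rep R σ w), hσ, hk, fun _ hv => rep_chi hirr hσ w hv⟩ := by
  unfold toF
  exact dif_pos _

include hirr in
lemma toF_isCh {k : ℕ} (x : Q R k →₀ 𝕜) : IsCh R k (toF x) where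
  supp σ w h := by
    unfold toF at h
    split_ifs at h with h2
    · exact ⟨h2.1, h2.2.1⟩
    · exact absurd rfl h
  inv σ w v hv := by
    by_cases h : Clq adj σ ∧ σ.card = k
    · rw [toF_eq hirr x h.1 h.2, toF_eq hirr x h.1 h.2]
      exact congrArg x (Q_ext rfl (rep_mul hirr h.1 w hv))
    · unfold toF
      rw [dif_neg, dif_neg]
      · intro h2; exact h ⟨h2.1, h2.2.1⟩
      · intro h2; exact h ⟨h2.1, h2.2.1⟩
  fin := by
    have h1 : (⋃ σ : Finset V, {w | rep R σ w ∈ (fun q : Q R k => q.1.2) '' (x.support : Set (Q R k))}).Finite :=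
      Set.finite_iUnion (fun σ => nrm_finite R.sq _ _ (Set.Finite.image _ (Finset.finite_toSet _)))
    refine h1.subset ?_
    rintro w ⟨σ, h⟩
    rw [Set.mem_iUnion]
    refine ⟨σ, ?_⟩
    unfold toF at h
    split_ifs at h with h2
    · exact ⟨⟨_, h2⟩, by simpa using h, rfl⟩
    · exact absurd rfl h

/-- from families to finitely supported functions -/
noncomputable def ofF {k : ℕ} (f : Finset V → W → 𝕜) (hf : IsCh R k f) : Q R k →₀ 𝕜 :=
  Finsupp.ofSupportFinite (fun q => f q.1.1 q.1.2) (by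
    have h1 : ((Set.univ : Set (Finset V)) ×ˢ {w | ∃ σ, f σ w ≠ 0}).Finite :=
      Set.Finite.prod Set.finite_univ hf.fin
    have h2 := h1.preimage (f := fun q : Q R k => q.1) (Subtype.val_injective.injOn)
    refine h2.subset ?_
    intro q hq
    exact ⟨Set.mem_univ _, ⟨q.1.1, hq⟩⟩)

lemma ofF_apply {k : ℕ} (f : Finset V → W → 𝕜) (hf : IsCh R k f) (q : Q R k) :
    ofF f hf q = f q.1.1 q.1.2 := rfl

include hirr in
lemma toF_ofF {k : ℕ} (f : Finset V → W → 𝕜) (hf : IsCh R k f) : toF (ofF f hf) = f := by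
  funext σ w
  by_cases h : Clq adj σ ∧ σ.card = k
  · rw [toF_eq hirr _ h.1 h.2, ofF_apply]
    exact rep_inv (f σ) σ (fun v hv w => hf.inv σ w v hv) w
  · have h1 : f σ w = 0 := by
      by_contra h0
      exact h (hf.supp σ w h0)
    unfold toF
    rw [dif_neg, h1]
    intro h2; exact h ⟨h2.1, h2.2.1⟩

/-- lower face of a cube -/
def face0 {k : ℕ} (q : Q R (k + 1)) (v : V) (hv : v ∈ q.1.1) : Q R k :=
  ⟨(q.1.1.erase v, q.1.2), fun a ha b hb => q.2.1 a (mem_of_mem_erase ha) b (mem_of_mem_erase hb),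
    by
      have := q.2.2.1
      change (q.1.1.erase v).card = k
      rw [card_erase_of_mem hv]; omega,
    fun u hu => q.2.2.2 u (mem_of_mem_erase hu)⟩

/-- upper face of a cube -/
def face1 {k : ℕ} (q : Q R (k + 1)) (v : V) (hv : v ∈ q.1.1) : Q R k :=
  ⟨(q.1.1.erase v, q.1.2 * R.s v),
    fun a ha b hb => q.2.1 a (mem_of_mem_erase ha) b (mem_of_mem_erase hb),
    by
      have := q.2.2.1
      change (q.1.1.erase v).card = k
      rw [card_erase_of_mem hv]; omega,
    fun u hu => by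
      simp only
      rw [chi_mul_ne _ (ne_of_mem_erase hu).symm]
      exact q.2.2.2 u (mem_of_mem_erase hu)⟩

/-- boundary of a basis cube -/
noncomputable def dB {k : ℕ} (q : Q R (k + 1)) : Q R k →₀ 𝕜 :=
  ∑ v ∈ q.1.1.attach, sg 𝕜 v.1 q.1.1 •
    (Finsupp.single (face0 q v.1 v.2) 1 + Finsupp.single (face1 q v.1 v.2) 1)

variable (R)

/-- The boundary map. -/
noncomputable def del (k : ℕ) : (Q R (k + 1) →₀ 𝕜) →ₗ[𝕜] (Q R k →₀ 𝕜) :=
  Finsupp.linearCombination 𝕜 (dB (R := R) (k := k))

variable {R}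

lemma del_single {k : ℕ} (q : Q R (k + 1)) (c : 𝕜) :
    del R k (Finsupp.single q c) = c • dB q := by
  unfold del
  rw [Finsupp.linearCombination_single]

include hirr in
lemma toF_single {k : ℕ} (q : Q R k) (τ : Finset V) (w : W) [Decidable (q.1.1 = τ ∧ rep R τ w = q.1.2)] :
    toF (Finsupp.single q (1 : 𝕜)) τ w = if q.1.1 = τ ∧ rep R τ w = q.1.2 then 1 else 0 := by
  obtain ⟨⟨σ, u⟩, h1, h2, h3⟩ := q
  split_ifs with h
  · obtain ⟨h0, h5⟩ := h
    simp only at h0 h5
    subst h0
    rw [toF_eq hirr _ h1 h2]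
    have : (⟨(σ, rep R σ w), h1, h2, fun _ hv => rep_chi hirr h1 w hv⟩ : Q R k) =
      ⟨(σ, u), h1, h2, h3⟩ := Q_ext rfl h5
    rw [this, Finsupp.single_eq_same]
  · unfold toF
    split_ifs with h4
    · rw [Finsupp.single_eq_of_ne]
      intro h5
      apply h
      have h6 := congrArg (fun q : Q R k => q.1.1) h5
      have h7 := congrArg (fun q : Q R k => q.1.2) h5
      exact ⟨h6.symm, h7⟩
    · rfl

include hirr in
lemma toF_dB {k : ℕ} (q : Q R (k + 1)) :
    toF (dB q) = bd (toF (Finsupp.single q (1 : 𝕜))) := by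
  classical
  funext τ w
  unfold dB bd
  rw [toF_sum]
  simp only [toF_smul, toF_add, toF_single hirr]
  change ∑ x ∈ q.1.1.attach, sg 𝕜 (x : V) q.1.1 *
      ((if q.1.1.erase (x : V) = τ ∧ rep R τ w = q.1.2 then (1 : 𝕜) else 0) +
        if q.1.1.erase (x : V) = τ ∧ rep R τ w = q.1.2 * R.s (x : V) then 1 else 0) = _
  rw [Finset.sum_attach q.1.1 (fun v => sg 𝕜 v q.1.1 *
    ((if q.1.1.erase v = τ ∧ rep R τ w = q.1.2 then 1 else 0) +
      (if q.1.1.erase v = τ ∧ rep R τ w = q.1.2 * R.s v then 1 else 0)))]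
  -- extend both sums to `univ`
  have hL : ∑ v ∈ q.1.1, sg 𝕜 v q.1.1 *
    ((if q.1.1.erase v = τ ∧ rep R τ w = q.1.2 then (1:𝕜) else 0) +
      (if q.1.1.erase v = τ ∧ rep R τ w = q.1.2 * R.s v then 1 else 0)) =
      ∑ v : V, if v ∈ q.1.1 then sg 𝕜 v q.1.1 *
    ((if q.1.1.erase v = τ ∧ rep R τ w = q.1.2 then (1:𝕜) else 0) +
      (if q.1.1.erase v = τ ∧ rep R τ w = q.1.2 * R.s v then 1 else 0)) else 0 := by
    rw [← Finset.sum_filter]; simp
  rw [hL, Finset.sum_filter]
  refine Finset.sum_congr rfl fun v _ => ?_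
  by_cases hv : v ∈ q.1.1 ∧ q.1.1.erase v = τ
  · obtain ⟨hv1, hv2⟩ := hv
    have hvτ : v ∉ τ := by rw [← hv2]; exact notMem_erase _ _
    have hσ : q.1.1 = insert v τ := by rw [← hv2, insert_erase hv1]
    have hc : Clq adj (insert v τ) := hσ ▸ q.2.1
    have hu : ∀ t ∈ insert v τ, R.χ t q.1.2 = 1 := by
      intro t ht; rw [← hσ] at ht; exact q.2.2.2 t ht
    have hr := rep_insert hirr hvτ hc q.1.2 w hu
    rw [if_pos hv1, if_pos hvτ]
    have hsg : sg 𝕜 v q.1.1 = sg 𝕜 v τ := by rw [hσ, sg_insert_self]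
    rw [hsg]
    congr 1
    simp only [hσ, erase_insert hvτ, true_and]
    by_cases ha : rep R τ w = q.1.2
    · have hb : ¬ rep R τ w = q.1.2 * R.s v := by
        rw [ha]
        intro h
        exact s_ne_one (R := R) v (left_eq_mul.1 h)
      rw [if_pos ha, if_neg hb, if_pos (hr.2 (Or.inl ha)), add_zero]
    · by_cases hb : rep R τ w = q.1.2 * R.s v
      · rw [if_neg ha, if_pos hb, if_pos (hr.2 (Or.inr hb)), zero_add]
      · rw [if_neg ha, if_neg hb, if_neg]
        · exact add_zero _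
        · intro h
          rcases hr.1 h with h | h
          · exact ha h
          · exact hb h
  · have h1 : (if v ∈ q.1.1 then sg 𝕜 v q.1.1 *
      ((if q.1.1.erase v = τ ∧ rep R τ w = q.1.2 then (1:𝕜) else 0) +
      (if q.1.1.erase v = τ ∧ rep R τ w = q.1.2 * R.s v then 1 else 0)) else 0) = 0 := by
      by_cases h1 : v ∈ q.1.1
      · have h2 : ¬ q.1.1.erase v = τ := fun h => hv ⟨h1, h⟩
        simp [h2]
      · rw [if_neg h1]
    rw [h1]
    by_cases h2 : v ∉ τ
    · have h3 : ¬ (q.1.1 = insert v τ ∧ rep R (insert v τ) w = q.1.2) := by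
        intro h3
        apply hv
        rw [h3.1]
        exact ⟨mem_insert_self _ _, erase_insert h2⟩
      rw [if_pos h2, if_neg h3, mul_zero]
    · rw [if_neg h2]

include hirr in
lemma toF_del {k : ℕ} (x : Q R (k + 1) →₀ 𝕜) : toF (del R k x) = bd (toF x) := by
  induction x using Finsupp.induction_linear with
  | zero =>
    rw [map_zero]
    funext τ w
    unfold bd
    simp [toF_zero]
  | add x y hx hy =>
    rw [map_add]
    funext τ w
    rw [toF_add, hx, hy]
    have : toF (x + y) = fun σ w => toF x σ w + toF y σ w := by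
      funext σ w; exact toF_add x y σ w
    rw [this, bd_add]
  | single q c =>
    rw [del_single]
    funext τ w
    rw [toF_smul, toF_dB hirr]
    have : Finsupp.single q c = c • Finsupp.single q (1:𝕜) := by simp
    rw [this]
    unfold bd
    rw [Finset.mul_sum]
    refine Finset.sum_congr rfl fun v _ => ?_
    rw [toF_smul]
    ring

end Pool.Agent.H75.Davis
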