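import Pool.Agent.H75.Davis.Coh

/-!
# Third and second cohomology with group ring coefficients
-/

namespace Pool.Agent.H75.Davis

open CategoryTheory Finset

set_option linter.unusedSectionVars false

variable {V : Type} [Fintype V] [LinearOrder V] {adj : V → V → Prop} {W : Type} [Group W]
variable {R : RData V adj W} {𝕜 : Type} [CommRing 𝕜]

/-- two triangles share an edge -/
def Share (adj : V → V → Prop) (σ σ' : Finset V) : Prop :=
  ∃ τ a b, Clq adj τ ∧ τ.card = 2 ∧ a ∉ τ ∧ b ∉ τ ∧ a ≠ b ∧ σ = insert a τ ∧ σ' = insert b τ ∧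
    Clq adj σ ∧ Clq adj σ'

variable (𝕜) in
/-- The nerve is a closed oriented connected surface, together with a 1-cocycle and a 1-cycle
which pair non-trivially. -/
structure LTop (adj : V → V → Prop) where
  no4 : ∀ σ, Clq adj σ → σ.card ≠ 4
  o : Finset V → 𝕜
  o_sq : ∀ σ, Clq adj σ → σ.card = 3 → o σ * o σ = 1
  o_cyc : ∀ τ : Finset V, Clq adj τ → τ.card = 2 →
      ∑ v ∈ univ.filter (· ∉ τ), sg 𝕜 v τ * (open Classical in
        if Clq adj (insert v τ) then o (insert v τ) else 0) = 0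
  two : ∀ τ a b c, Clq adj τ → τ.card = 2 → a ∉ τ → b ∉ τ → c ∉ τ → a ≠ b →
    Clq adj (insert a τ) → Clq adj (insert b τ) → Clq adj (insert c τ) → c = a ∨ c = b
  base : Finset V
  base_clq : Clq adj base
  base_card : base.card = 3
  conn : ∀ σ, Clq adj σ → σ.card = 3 → Relation.ReflTransGen (Share adj) base σ
  cover : ∀ v, ∃ σ, Clq adj σ ∧ σ.card = 3 ∧ v ∈ σ
  b : Finset V → 𝕜
  η : Finset V → 𝕜
  b_coc : ∀ σ, Clq adj σ → σ.card = 3 → ∑ v ∈ σ, sg 𝕜 v σ * b (σ.erase v) = 0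
  η_cyc : ∀ τ : Finset V, Clq adj τ → τ.card = 1 →
      ∑ v ∈ univ.filter (· ∉ τ), sg 𝕜 v τ * (open Classical in
        if Clq adj (insert v τ) then η (insert v τ) else 0) = 0
  pairing : ∑ τ : Finset V, (open Classical in
    if Clq adj τ ∧ τ.card = 2 then b τ * η τ else 0) ≠ 0

variable (T : LTop 𝕜 adj) (hirr : ∀ v, ¬ adj v v)

section

variable (R)

/-- coboundaries in degree three -/
noncomputable def N3 (R : RData V adj W) (𝕜 : Type) [CommRing 𝕜] : Submodule 𝕜 (Q R 3 →₀ 𝕜) :=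
  LinearMap.range (dlt R 𝕜 2)

include hirr in
lemma share_rel {σ σ' : Finset V} (h : Share adj σ σ') (w : W) :
    T.o σ • e R 𝕜 3 σ w - T.o σ' • e R 𝕜 3 σ' w ∈ N3 R 𝕜 := by
  classical
  obtain ⟨τ, a, b, hτ, hk, ha, hb, hab, rfl, rfl, hca, hcb⟩ := h
  have h1 : dlt R 𝕜 2 (e R 𝕜 2 τ w) = sg 𝕜 a τ • e R 𝕜 3 (insert a τ) w +
      sg 𝕜 b τ • e R 𝕜 3 (insert b τ) w := by
    rw [dlt_e hirr]
    rw [← Finset.sum_subset (s₁ := {a, b})]
    · rw [Finset.sum_pair hab]
    · intro x hx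
      simp only [mem_insert, mem_singleton] at hx
      rcases hx with rfl | rfl <;> simp [ha, hb]
    · intro x hx hx2
      simp only [mem_insert, mem_singleton, not_or] at hx2
      simp only [mem_filter, mem_univ, true_and] at hx
      rw [e_zero, smul_zero]
      rintro ⟨h3, -⟩
      rcases T.two τ a b x hτ hk ha hb hx hab hca hcb h3 with h4 | h4
      · exact hx2.1 h4
      · exact hx2.2 h4
  have h2 := T.o_cyc τ hτ hk
  have h3 : ∑ v ∈ univ.filter (· ∉ τ), sg 𝕜 v τ * (open Classical in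
        if Clq adj (insert v τ) then T.o (insert v τ) else 0) =
      sg 𝕜 a τ * T.o (insert a τ) + sg 𝕜 b τ * T.o (insert b τ) := by
    rw [← Finset.sum_subset (s₁ := {a, b})]
    · rw [Finset.sum_pair hab, if_pos hca, if_pos hcb]
    · intro x hx
      simp only [mem_insert, mem_singleton] at hx
      rcases hx with rfl | rfl <;> simp [ha, hb]
    · intro x hx hx2
      simp only [mem_insert, mem_singleton, not_or] at hx2
      simp only [mem_filter, mem_univ, true_and] at hx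
      rw [if_neg, mul_zero]
      intro h3
      rcases T.two τ a b x hτ hk ha hb hx hab hca hcb h3 with h4 | h4
      · exact hx2.1 h4
      · exact hx2.2 h4
  rw [h3] at h2
  have h4 : (sg 𝕜 a τ * T.o (insert a τ)) • dlt R 𝕜 2 (e R 𝕜 2 τ w) =
      T.o (insert a τ) • e R 𝕜 3 (insert a τ) w - T.o (insert b τ) • e R 𝕜 3 (insert b τ) w := by
    rw [h1, smul_add, smul_smul, smul_smul]
    have h5 : sg 𝕜 a τ * T.o (insert a τ) * sg 𝕜 a τ = T.o (insert a τ) := by
      have := sg_sq (𝕜 := 𝕜) a τ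
      linear_combination (T.o (insert a τ)) * this
    have h6 : sg 𝕜 a τ * T.o (insert a τ) * sg 𝕜 b τ = - T.o (insert b τ) := by
      have := sg_sq (𝕜 := 𝕜) b τ
      linear_combination (sg 𝕜 b τ) * h2 - (T.o (insert b τ)) * this
    rw [h5, h6]
    module
  rw [← h4]
  exact Submodule.smul_mem _ _ ⟨_, rfl⟩

include hirr in
lemma tri_rel (σ : Finset V) (h1 : Clq adj σ) (h2 : σ.card = 3) (w : W) :
    T.o T.base • e R 𝕜 3 T.base w - T.o σ • e R 𝕜 3 σ w ∈ N3 R 𝕜 := by
  have h := T.conn σ h1 h2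
  induction h with
  | refl => rw [sub_self]; exact Submodule.zero_mem _
  | tail hab hbc ih =>
    rename_i b c
    have hb : Clq adj b ∧ b.card = 3 := by
      obtain ⟨τ, x, y, hτ, hk, ha, hb, hab, rfl, rfl, hca, hcb⟩ := hbc
      exact ⟨hca, by rw [card_insert_of_notMem ha, hk]⟩
    have := Submodule.add_mem _ (ih hb.1 hb.2) (share_rel R T hirr hbc w)
    convert this using 1
    abel

include hirr in
lemma move_rel (v : V) (w : W) :
    T.o T.base • e R 𝕜 3 T.base w - T.o T.base • e R 𝕜 3 T.base (w * R.s v) ∈ N3 R 𝕜 := by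
  obtain ⟨σ, h1, h2, h3⟩ := T.cover v
  have ha := tri_rel R T hirr σ h1 h2 w
  have hb := tri_rel R T hirr σ h1 h2 (w * R.s v)
  rw [e_mul hirr σ w h3] at hb
  have := Submodule.sub_mem _ ha hb
  convert this using 1
  abel

include hirr in
lemma move_rel' (g w : W) :
    T.o T.base • e R 𝕜 3 T.base w - T.o T.base • e R 𝕜 3 T.base (w * g) ∈ N3 R 𝕜 := by
  let S : Subgroup W :=
    { carrier := {g | ∀ w, T.o T.base • e R 𝕜 3 T.base w -
        T.o T.base • e R 𝕜 3 T.base (w * g) ∈ N3 R 𝕜}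
      one_mem' := by
        intro w
        rw [mul_one, sub_self]; exact Submodule.zero_mem _
      mul_mem' := by
        intro a b ha hb w
        have := Submodule.add_mem _ (ha w) (hb (w * a))
        rw [← mul_assoc]
        convert this using 1
        abel
      inv_mem' := by
        intro a ha w
        have := ha (w * a⁻¹)
        rw [mul_assoc, inv_mul_cancel, mul_one] at this
        have := Submodule.neg_mem _ this
        convert this using 1
        abel }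
  have hS : S = ⊤ := R.gen S (fun v w => move_rel R T hirr v w)
  have : g ∈ S := by rw [hS]; trivial
  exact this w

include hirr in
lemma rel_all (q : Q R 3) (c : 𝕜) :
    Finsupp.single q c - (c * T.o q.1.1) • (T.o T.base • e R 𝕜 3 T.base 1) ∈ N3 R 𝕜 := by
  have h1 := tri_rel R T hirr q.1.1 q.2.1 q.2.2.1 q.1.2
  have h2 := move_rel' R T hirr q.1.2 1
  rw [one_mul] at h2
  have h3 := Submodule.smul_mem _ (-(c * T.o q.1.1)) (Submodule.add_mem _ h1 h2)
  have h4 : Finsupp.single q c = c • e R 𝕜 3 q.1.1 q.1.2 := by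
    rw [e_self]; simp
  rw [h4]
  have h5 := T.o_sq q.1.1 q.2.1 q.2.2.1
  have h6 : c • e R 𝕜 3 q.1.1 q.1.2 = (c * T.o q.1.1) • (T.o q.1.1 • e R 𝕜 3 q.1.1 q.1.2) := by
    rw [smul_smul, mul_assoc, h5, mul_one]
  rw [h6]
  convert h3 using 1
  module

include hirr in
/-- the kernel of the fundamental functional consists of coboundaries -/
lemma ker_fnl (ψ : Q R 3 →₀ 𝕜) (h : fnl R 3 T.o ψ = 0) : ψ ∈ N3 R 𝕜 := by
  have h1 : ψ - (fnl R 3 T.o ψ) • (T.o T.base • e R 𝕜 3 T.base 1) ∈ N3 R 𝕜 := by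
    clear h
    induction ψ using Finsupp.induction_linear with
    | zero => simp
    | add x y hx hy =>
      have := Submodule.add_mem _ hx hy
      rw [map_add]
      convert this using 1
      module
    | single q c =>
      have := rel_all R T hirr q c
      unfold fnl
      rw [Finsupp.linearCombination_single, smul_eq_mul]
      exact this
  rw [h, zero_smul, sub_zero] at h1
  exact h1

include hirr in
lemma fnl_surj : Function.Surjective (fnl R 3 T.o) := by
  intro c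
  refine ⟨(c * T.o T.base) • e R 𝕜 3 T.base 1, ?_⟩
  rw [map_smul, fnl_e hirr _ T.base_clq T.base_card, smul_eq_mul, mul_assoc,
    T.o_sq _ T.base_clq T.base_card, mul_one]

/-- the cocycle -/
noncomputable def cc : Q R 2 →₀ 𝕜 :=
  ∑ τ : Finset V, T.b τ • e R 𝕜 2 τ 1

include hirr in
lemma dlt_cc : dlt R 𝕜 2 (cc R T) = 0 := by
  classical
  unfold cc
  rw [map_sum]
  simp only [map_smul, dlt_e hirr, Finset.smul_sum, smul_smul]
  rw [Finset.sum_sigma']
  have h1 : ∑ x ∈ (univ : Finset (Finset V)).sigma (fun τ => univ.filter (· ∉ τ)),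
      (T.b x.1 * sg 𝕜 x.2 x.1) • e R 𝕜 (2 + 1) (insert x.2 x.1) 1 =
      ∑ y ∈ (univ : Finset (Finset V)).sigma (fun σ => σ),
      (T.b (y.1.erase y.2) * sg 𝕜 y.2 y.1) • e R 𝕜 (2 + 1) y.1 1 := by
    refine Finset.sum_bij' (fun x _ => ⟨insert x.2 x.1, x.2⟩) (fun y _ => ⟨y.1.erase y.2, y.2⟩)
      ?_ ?_ ?_ ?_ ?_
    · rintro ⟨τ, v⟩ h
      simp
    · rintro ⟨σ, v⟩ h
      simp
    · rintro ⟨τ, v⟩ h
      simp only [mem_sigma, mem_univ, true_and, mem_filter] at h
      simp [erase_insert h]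
    · rintro ⟨σ, v⟩ h
      simp only [mem_sigma, mem_univ, true_and] at h
      simp [insert_erase h]
    · rintro ⟨τ, v⟩ h
      simp only [mem_sigma, mem_univ, true_and, mem_filter] at h
      simp only [sg_insert_self, erase_insert h]
  rw [h1, Finset.sum_sigma]
  refine Finset.sum_eq_zero fun σ _ => ?_
  by_cases h : Clq adj σ ∧ σ.card = 3
  · simp only
    rw [← Finset.sum_smul]
    have := T.b_coc σ h.1 h.2
    have h2 : ∑ v ∈ σ, T.b (σ.erase v) * sg 𝕜 v σ = 0 := by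
      rw [← this]
      exact Finset.sum_congr rfl fun v _ => mul_comm _ _
    rw [h2, zero_smul]
  · refine Finset.sum_eq_zero fun v _ => ?_
    rw [e_zero h, smul_zero]

include hirr in
lemma fnl_cc : fnl R 2 T.η (cc R T) ≠ 0 := by
  classical
  have h1 : fnl R 2 T.η (cc R T) = ∑ τ : Finset V, (open Classical in
    if Clq adj τ ∧ τ.card = 2 then T.b τ * T.η τ else 0) := by
    unfold cc
    rw [map_sum]
    refine Finset.sum_congr rfl fun τ _ => ?_
    rw [map_smul, smul_eq_mul]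
    by_cases h : Clq adj τ ∧ τ.card = 2
    · rw [fnl_e hirr _ h.1 h.2, if_pos h]
    · rw [if_neg h, e_zero h, map_zero, mul_zero]
  rw [h1]
  exact T.pairing

include hirr in
lemma cc_not_range (ψ : Q R 1 →₀ 𝕜) : dlt R 𝕜 1 ψ ≠ cc R T := by
  intro h
  have h1 := fnl_dlt hirr T.η T.η_cyc ψ
  rw [h] at h1
  exact fnl_cc R T hirr h1

include T in
lemma Q4_empty : IsEmpty (Q R 4) := ⟨fun q => T.no4 q.1.1 q.2.1 q.2.2.1⟩

end

section coh

variable {Λ : Type} [Group Λ] (L : LData R Λ) [Nonempty V] (hone : R.len 1 = 0)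

/-- Hom complex -/
noncomputable abbrev Kc : CochainComplex (ModuleCat.{0} 𝕜) ℕ :=
  (resol L hirr hone (𝕜 := 𝕜)).complex.linearYonedaObj 𝕜 (Rep.ofMulAction 𝕜 Λ Λ)

lemma Kc_d (n : ℕ) (F : (Rep.of (permL L 𝕜 n)) ⟶ Rep.ofMulAction 𝕜 Λ Λ) :
    ((Kc hirr L hone (𝕜 := 𝕜)).d n (n + 1)).hom F = Rep.ofHom (delI L 𝕜 n) ≫ F := by
  have h : (Kc hirr L hone (𝕜 := 𝕜)).d n (n + 1) =
    ((linearYoneda 𝕜 (Rep 𝕜 Λ)).obj (Rep.ofMulAction 𝕜 Λ Λ)).map
      ((cplx L 𝕜 hirr).d (n + 1) n).op := rfl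
  rw [h, cplx_d]
  rfl

/-- functions of elements of the Hom complex -/
noncomputable def ph (n : ℕ) : (Kc hirr L hone (𝕜 := 𝕜)).X n →ₗ[𝕜] (Q R n →₀ 𝕜) where
  toFun F := phiL L (Rep.Hom.hom (A := Rep.of (permL L 𝕜 n)) (B := Rep.ofMulAction 𝕜 Λ Λ) F)
  map_add' F F' := phiL_add L _ _
  map_smul' c F := phiL_smul L c _

lemma ph_inj (n : ℕ) : Function.Injective (ph (𝕜 := 𝕜) hirr L hone n) := by
  intro F F' h
  exact Rep.hom_ext (phiL_injective L h)

lemma ph_surj (n : ℕ) : Function.Surjective (ph (𝕜 := 𝕜) hirr L hone n) := by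
  intro ψ
  obtain ⟨F, hF⟩ := phiL_surjective L ψ
  exact ⟨Rep.ofHom F, hF⟩

lemma ph_d (n : ℕ) (F : (Kc hirr L hone (𝕜 := 𝕜)).X n) :
    ph hirr L hone (n + 1) (((Kc hirr L hone (𝕜 := 𝕜)).d n (n + 1)).hom F) =
      dlt R 𝕜 n (ph hirr L hone n F) := by
  exact (congrArg (ph hirr L hone (n + 1)) (Kc_d hirr L hone n F)).trans (phiL_comp hirr L _)

include T hirr L hone in
theorem H3 : Nonempty (groupCohomology (Rep.ofMulAction 𝕜 Λ Λ) 3 ≃+ 𝕜) := by
  have h1 : Nonempty ((Kc hirr L hone (𝕜 := 𝕜)).homology (2 + 1) ≃+ 𝕜) := by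
    refine homology_equiv _ 2 ((fnl R 3 T.o) ∘ₗ (ph hirr L hone 3)) ?_ ?_ ?_
    · exact (fnl_surj R T hirr).comp (ph_surj hirr L hone 3)
    · intro x
      constructor
      · intro h
        obtain ⟨ψ, hψ⟩ := ker_fnl R T hirr _ h
        obtain ⟨F, hF⟩ := ph_surj hirr L hone 2 ψ
        refine ⟨F, ph_inj hirr L hone 3 ?_⟩
        rw [ph_d, hF, hψ]
      · rintro ⟨y, rfl⟩
        change fnl R 3 T.o (ph hirr L hone (2 + 1) _) = 0
        rw [ph_d]
        exact fnl_dlt hirr T.o T.o_cyc _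
    · intro x
      apply ph_inj hirr L hone 4
      have := Q4_empty (R := R) T
      ext q
      exact isEmptyElim q
  obtain ⟨f⟩ := h1
  exact ⟨((groupCohomologyIso (Rep.ofMulAction 𝕜 Λ Λ) 3
    (resol L hirr hone (𝕜 := 𝕜))).toLinearEquiv.toAddEquiv).trans f⟩

include T hirr L hone in
theorem H2 : ¬ Subsingleton (groupCohomology (Rep.ofMulAction 𝕜 Λ Λ) 2) := by
  obtain ⟨F, hF⟩ := ph_surj hirr L hone 2 (cc R T)
  have h1 : ¬ Subsingleton ((Kc hirr L hone (𝕜 := 𝕜)).homology (1 + 1)) := by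
    refine homology_not_subsingleton _ 1 F ?_ ?_
    · apply ph_inj hirr L hone 3
      rw [ph_d, hF, map_zero]
      exact dlt_cc R T hirr
    · intro y hy
      apply cc_not_range R T hirr (ph hirr L hone 1 y)
      rw [← hF, ← hy]
      exact (ph_d hirr L hone 1 y).symm
  intro h
  apply h1
  exact ((groupCohomologyIso (Rep.ofMulAction 𝕜 Λ Λ) 2
    (resol L hirr hone (𝕜 := 𝕜))).toLinearEquiv.toEquiv).symm.subsingleton

end coh

end Pool.Agent.H75.Davis
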