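import Pool.Agent.H75.Davis.Torus
import Pool.Agent.H75.Davis.FP3
import Pool.Agent.H75.Davis.Cox
import Pool.Agent.H75.Davis.Top

/-!
# The group `G`

`W` is the right-angled Coxeter group whose nerve is the flag torus on twelve vertices, and `G` is the
subgroup on which every sign character is trivial.
-/

set_option autoImplicit false

namespace Pool.Agent.H75.Davis.Final

open Pool.Agent.H75.Davis Pool.Agent.H75.Davis.Torus

/-- the Coxeter group with nerve the twelve vertex torus -/
abbrev WT : Type := RW adjT adj_symm

/-- its combinatorial data -/
noncomputable abbrev RT : RData (Fin 12) adjT WT := rdata adjT adj_symm adj_irr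


lemma hone : RT.len 1 = 0 := (rcs adjT adj_symm).length_one

/-- all sign characters together -/
noncomputable def chi : WT →* (Fin 12 → ℤˣ) := MonoidHom.mk' (fun w v => RT.χ v w) (by
  intro a b; funext v; simp)

/-- the common kernel of the sign characters -/
noncomputable def GT : Subgroup WT := chi.ker

lemma GT_fi : GT.FiniteIndex := by
  unfold GT
  infer_instance

lemma GT_chi (g : WT) (hg : g ∈ GT) (v : Fin 12) : RT.χ v g = 1 := by
  have h : chi g = 1 := hg
  exact congrFun h v

/-- the data for `GT` itself -/
noncomputable def LG : LData RT GT where
  ι := GT.subtype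
  inj := GT.subtype_injective
  hχ g v := GT_chi _ g.2 v
  fi := by
    rw [Subgroup.range_subtype]
    exact GT_fi

/-- the data for a finite index subgroup of `GT` -/
noncomputable def LH (H : Subgroup GT) (hH : H.FiniteIndex) : LData RT H where
  ι := GT.subtype.comp H.subtype
  inj := GT.subtype_injective.comp H.subtype_injective
  hχ g v := GT_chi _ g.1.2 v
  fi := by
    have h1 : (GT.subtype.comp H.subtype).range = H.map GT.subtype := by
      rw [MonoidHom.range_comp, Subgroup.range_subtype]
    rw [h1]
    have h2 := GT_fi
    constructor
    rw [Subgroup.index_map]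
    rw [Subgroup.range_subtype, Subgroup.ker_subtype, sup_bot_eq]
    exact mul_ne_zero hH.index_ne_zero h2.index_ne_zero

end Pool.Agent.H75.Davis.Final
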