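import Mathlib

/-!
# Permutation modules of free actions
-/

namespace Pool.Agent.H75.Davis

open CategoryTheory

section

variable {𝕜 : Type} [CommRing 𝕜] {Λ : Type} [Group Λ] (X : Type) [MulAction Λ X]

variable (𝕜 Λ) in
/-- permutation representation -/
noncomputable def perm : Representation 𝕜 Λ (X →₀ 𝕜) where
  toFun g := Finsupp.lmapDomain 𝕜 𝕜 (g • ·)
  map_one' := by ext; simp
  map_mul' x y := by ext; simp [mul_smul]

variable {X}

@[simp] lemma perm_single (g : Λ) (x : X) (c : 𝕜) :
    perm 𝕜 Λ X g (Finsupp.single x c) = Finsupp.single (g • x) c := by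
  simp [perm]

lemma perm_apply (g : Λ) (f : X →₀ 𝕜) (x : X) : perm 𝕜 Λ X g f x = f (g⁻¹ • x) := by
  conv_lhs => rw [← smul_inv_smul g x]
  simp only [perm, MonoidHom.coe_mk, OneHom.coe_mk, Finsupp.lmapDomain_apply]
  exact Finsupp.mapDomain_apply (MulAction.injective g) _ _

/-- orbits -/
abbrev Orb (Λ X : Type) [Group Λ] [MulAction Λ X] := MulAction.orbitRel.Quotient Λ X

/-- representative of the orbit of a point -/
noncomputable def orep (b : Orb Λ X) : X := Quotient.out b

lemma exists_trans (x : X) : ∃ g : Λ, g • orep (Quotient.mk'' x : Orb Λ X) = x := by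
  have h := Quotient.mk_out (s := MulAction.orbitRel Λ X) x
  have h2 : orep (Quotient.mk'' x : Orb Λ X) ∈ MulAction.orbit Λ x := h
  obtain ⟨g, hg⟩ := h2
  refine ⟨g⁻¹, ?_⟩
  have hg' : g • x = orep (Quotient.mk'' x : Orb Λ X) := hg
  rw [← hg', inv_smul_smul]

variable (Λ) in
/-- transporter -/
noncomputable def otr (x : X) : Λ := (exists_trans x).choose

lemma otr_smul (x : X) : otr Λ x • orep (Quotient.mk'' x : Orb Λ X) = x :=
  (exists_trans x).choose_spec

lemma mk_smul (g : Λ) (x : X) : (Quotient.mk'' (g • x) : Orb Λ X) = Quotient.mk'' x := by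
  apply Quotient.sound
  exact ⟨g, rfl⟩

lemma mk_orep (b : Orb Λ X) : (Quotient.mk'' (orep b) : Orb Λ X) = b := Quotient.out_eq b

variable (hfree : ∀ (g : Λ) (x : X), g • x = x → g = 1)

include hfree in
lemma otr_unique {x : X} {g : Λ} (h : g • orep (Quotient.mk'' x : Orb Λ X) = x) :
    g = otr Λ x := by
  have h2 : (g⁻¹ * otr Λ x) • orep (Quotient.mk'' x : Orb Λ X)
      = orep (Quotient.mk'' x : Orb Λ X) := by
    rw [mul_smul, otr_smul, inv_smul_eq_iff, h]
  have := hfree _ _ h2
  exact (inv_mul_eq_one.1 this)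

include hfree in
lemma otr_mul (g : Λ) (x : X) : otr Λ (g • x) = g * otr Λ x := by
  symm
  apply otr_unique hfree
  rw [mk_smul, mul_smul, otr_smul]

include hfree in
lemma otr_orep (b : Orb Λ X) : otr Λ (orep b) = 1 := by
  symm
  apply otr_unique hfree
  rw [mk_orep, one_smul]

/-- forward map -/
noncomputable def fwd : (Orb Λ X →₀ MonoidAlgebra 𝕜 Λ) →ₗ[𝕜] (X →₀ 𝕜) :=
  (Representation.freeLift (perm 𝕜 Λ X) (fun b : Orb Λ X => Finsupp.single (orep b) 1)).toLinearMap

lemma fwd_single (b : Orb Λ X) (g : Λ) (c : 𝕜) :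
    fwd (Finsupp.single b (MonoidAlgebra.single g c)) = Finsupp.single (g • orep b) c := by
  unfold fwd
  erw [Representation.freeLift_single_single]
  simp

/-- backward map -/
noncomputable def bwd : (X →₀ 𝕜) →ₗ[𝕜] (Orb Λ X →₀ MonoidAlgebra 𝕜 Λ) :=
  Finsupp.linearCombination 𝕜
    (fun x => Finsupp.single (Quotient.mk'' x) (MonoidAlgebra.single (otr Λ x) 1))

lemma bwd_single (x : X) (c : 𝕜) :
    bwd (Λ := Λ) (Finsupp.single x c) =
      c • Finsupp.single (Quotient.mk'' x) (MonoidAlgebra.single (otr Λ x) 1) := by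
  simp [bwd]

lemma free_induction {α : Type} {p : (α →₀ MonoidAlgebra 𝕜 Λ) → Prop}
    (h0 : p 0) (hadd : ∀ x y, p x → p y → p (x + y))
    (hs : ∀ b g c, p (Finsupp.single b (MonoidAlgebra.single g c))) (x) : p x := by
  induction x using Finsupp.induction_linear with
  | zero => exact h0
  | add x y hx hy => exact hadd x y hx hy
  | single b y =>
    induction y using MonoidAlgebra.induction_linear with
    | zero => rw [Finsupp.single_zero]; exact h0
    | add x y hx hy => rw [Finsupp.single_add]; exact hadd _ _ hx hy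
    | single g c => exact hs b g c

lemma fwd_bwd (x : X →₀ 𝕜) : fwd (bwd (Λ := Λ) x) = x := by
  induction x using Finsupp.induction_linear with
  | zero => simp
  | add x y hx hy => rw [map_add, map_add, hx, hy]
  | single x c =>
    rw [bwd_single, map_smul, fwd_single, otr_smul, Finsupp.smul_single, smul_eq_mul, mul_one]

include hfree in
lemma bwd_fwd (x : Orb Λ X →₀ MonoidAlgebra 𝕜 Λ) : bwd (fwd x) = x := by
  induction x using free_induction with
  | h0 => simp
  | hadd x y hx hy => rw [map_add, map_add, hx, hy]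
  | hs b g c =>
    rw [fwd_single, bwd_single, mk_smul, mk_orep, otr_mul hfree, otr_orep hfree, mul_one,
      Finsupp.smul_single, MonoidAlgebra.smul_single, smul_eq_mul, mul_one]

lemma fwd_equiv (g : Λ) (x : Orb Λ X →₀ MonoidAlgebra 𝕜 Λ) :
    fwd (Representation.free 𝕜 Λ (Orb Λ X) g x) = perm 𝕜 Λ X g (fwd x) := by
  induction x using free_induction with
  | h0 => simp
  | hadd x y hx hy => rw [map_add, map_add, hx, hy, map_add, map_add]
  | hs b g' c =>
    rw [Representation.free_single_single, fwd_single, fwd_single, perm_single, mul_smul]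

/-- a permutation module of a free action is free -/
noncomputable def freeEquiv : (Representation.free 𝕜 Λ (Orb Λ X)).Equiv (perm 𝕜 Λ X) :=
  Representation.Equiv.mk
    (LinearEquiv.ofLinearMap fwd bwd
      (LinearMap.ext fun x => fwd_bwd x)
      (LinearMap.ext fun x => bwd_fwd hfree x))
    (fun g => LinearMap.ext fun x => fwd_equiv g x)

include hfree in
lemma perm_projective : Projective (Rep.of (perm 𝕜 Λ X)) :=
  Projective.of_iso (Rep.mkIso (freeEquiv hfree)) inferInstance

/-- `fwd` as linear equivalence over the group ring -/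
noncomputable def freeModEquiv :
    (Representation.free 𝕜 Λ (Orb Λ X)).asModule ≃ₗ[MonoidAlgebra 𝕜 Λ] (perm 𝕜 Λ X).asModule :=
  LinearEquiv.ofBijective
    (Representation.IntertwiningMap.equivLinearMapAsModule _ _ (freeEquiv hfree).toIntertwiningMap)
    (freeEquiv hfree).toLinearEquiv.bijective

include hfree in
lemma perm_mod_projective : Module.Projective (MonoidAlgebra 𝕜 Λ) (perm 𝕜 Λ X).asModule := by
  have : Module.Free (MonoidAlgebra 𝕜 Λ) (Representation.free 𝕜 Λ (Orb Λ X)).asModule :=
    Representation.free_asModule_free _ _ _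
  exact Module.Projective.of_equiv (freeModEquiv hfree)

include hfree in
lemma perm_mod_finite [Finite (Orb Λ X)] : Module.Finite (MonoidAlgebra 𝕜 Λ) (perm 𝕜 Λ X).asModule := by
  have : Module.Finite (MonoidAlgebra 𝕜 Λ) (Representation.free 𝕜 Λ (Orb Λ X)).asModule :=
    Module.Finite.of_basis (Representation.freeAsModuleBasis 𝕜 Λ (Orb Λ X))
  exact Module.Finite.equiv (freeModEquiv hfree)

end

end Pool.Agent.H75.Davis
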