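import Mathlib

/-!
# Small lemmas on homology of complexes of abelian groups
-/

namespace Pool.Agent.H75.Davis

open CategoryTheory

variable {k : Type} [CommRing k]

lemma homology_equiv (K : CochainComplex (ModuleCat.{0} k) ℕ) (n : ℕ)
    (Φ : K.X (n + 1) →ₗ[k] k) (hs : Function.Surjective Φ)
    (hker : ∀ x, Φ x = 0 ↔ ∃ y, (K.d n (n + 1)).hom y = x)
    (hz : ∀ x, (K.d (n + 1) (n + 2)).hom x = 0) : Nonempty (K.homology (n + 1) ≃+ k) := by
  let S := K.sc' n (n + 1) (n + 2)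
  have e1 : K.homology (n + 1) ≅ S.homology :=
    K.homologyIsoSc' n (n + 1) (n + 2) (by simp) (by simp)
  have e2 : S.homology ≅ S.moduleCatLeftHomologyData.H := S.moduleCatHomologyIso
  let Ψ : LinearMap.ker S.g.hom →ₗ[k] k := Φ ∘ₗ (LinearMap.ker S.g.hom).subtype
  have hΨs : Function.Surjective Ψ := by
    intro c
    obtain ⟨x, hx⟩ := hs c
    exact ⟨⟨x, hz x⟩, hx⟩
  have hΨk : LinearMap.range S.moduleCatToCycles = LinearMap.ker Ψ := by
    ext x
    constructor
    · rintro ⟨y, rfl⟩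
      exact (hker _).2 ⟨y, rfl⟩
    · intro hx
      obtain ⟨y, hy⟩ := (hker x.1).1 hx
      exact ⟨y, Subtype.ext hy⟩
  have e3 : (LinearMap.ker S.g.hom ⧸ LinearMap.range S.moduleCatToCycles) ≃ₗ[k] k :=
    (Submodule.quotEquivOfEq _ _ hΨk).trans (Ψ.quotKerEquivOfSurjective hΨs)
  exact ⟨((e1 ≪≫ e2).toLinearEquiv.toAddEquiv).trans e3.toAddEquiv⟩

lemma homology_not_subsingleton (K : CochainComplex (ModuleCat.{0} k) ℕ) (n : ℕ)
    (x : K.X (n + 1)) (hx : (K.d (n + 1) (n + 2)).hom x = 0)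
    (hx' : ∀ y, (K.d n (n + 1)).hom y ≠ x) : ¬ Subsingleton (K.homology (n + 1)) := by
  intro h
  have h0 : Limits.IsZero (K.homology (n + 1)) := ModuleCat.isZero_of_subsingleton _
  have h1 : (K.sc' n (n + 1) (n + 2)).Exact := by
    rw [← K.exactAt_iff' n (n + 1) (n + 2) (by simp) (by simp)]
    rw [HomologicalComplex.exactAt_iff_isZero_homology]
    exact h0
  rw [ShortComplex.moduleCat_exact_iff] at h1
  obtain ⟨y, hy⟩ := h1 x hx
  exact hx' y hy

end Pool.Agent.H75.Davis
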