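import Pool.Agent.H75.Davis.Exact
import Pool.Agent.H75.Davis.FreeAct
import Pool.Agent.H75.Davis.Homology

/-!
# The projective resolution given by the Davis complex
-/

namespace Pool.Agent.H75.Davis

open CategoryTheory Finset

set_option linter.unusedSectionVars false

variable {V : Type} [Fintype V] [LinearOrder V] {adj : V → V → Prop} {W : Type} [Group W]
variable {R : RData V adj W}

/-- a group embedded in `W` with finite index and trivial characters -/
structure LData (R : RData V adj W) (Λ : Type) [Group Λ] where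
  ι : Λ →* W
  inj : Function.Injective ι
  hχ : ∀ g v, R.χ v (ι g) = 1
  fi : ι.range.FiniteIndex

variable {Λ : Type} [Group Λ] (L : LData R Λ)

/-- action on cubes -/
def act {k : ℕ} (g : Λ) (q : Q R k) : Q R k :=
  ⟨(q.1.1, L.ι g * q.1.2), q.2.1, q.2.2.1, fun v hv => by
    simp only
    rw [map_mul, L.hχ, one_mul]
    exact q.2.2.2 v hv⟩

/-- action on cubes -/
@[reducible] def mact (k : ℕ) : MulAction Λ (Q R k) where
  smul g q := act L g q
  one_smul q := Q_ext rfl (by change L.ι 1 * q.1.2 = q.1.2; rw [map_one, one_mul])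
  mul_smul g h q := Q_ext rfl (by
    change L.ι (g * h) * q.1.2 = L.ι g * (L.ι h * q.1.2); rw [map_mul, mul_assoc])

lemma act_free {k : ℕ} (g : Λ) (q : Q R k) (h : act L g q = q) : g = 1 := by
  have h1 : (act L g q).1.2 = q.1.2 := by rw [h]
  change L.ι g * q.1.2 = q.1.2 at h1
  apply L.inj
  rw [map_one]
  exact mul_eq_right.1 h1

lemma orb_finite (k : ℕ) : Finite (@Orb Λ (Q R k) _ (mact L k)) := by
  let _ := mact L k
  have := L.fi
  have hfin : Finite (W ⧸ L.ι.range) := inferInstance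
  let f : Orb Λ (Q R k) → Finset V × (W ⧸ L.ι.range) := fun b =>
    Quotient.liftOn' b (fun q : Q R k => (q.1.1, (((q.1.2)⁻¹ : W) : W ⧸ L.ι.range))) (by
      rintro q q' ⟨g, hg⟩
      have hg' : act L g q' = q := hg
      rw [← hg']
      refine Prod.ext rfl ?_
      change (((L.ι g * q'.1.2)⁻¹ : W) : W ⧸ L.ι.range) = (((q'.1.2)⁻¹ : W) : W ⧸ L.ι.range)
      rw [QuotientGroup.eq]
      refine ⟨g, ?_⟩
      group)
  refine Finite.of_injective f ?_
  intro b b' h
  induction b using Quotient.inductionOn' with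
  | h q =>
  induction b' using Quotient.inductionOn' with
  | h q' =>
  have h0 : (q.1.1, (((q.1.2)⁻¹ : W) : W ⧸ L.ι.range)) =
    (q'.1.1, (((q'.1.2)⁻¹ : W) : W ⧸ L.ι.range)) := h
  obtain ⟨h1, h2⟩ := Prod.ext_iff.1 h0
  simp only at h1 h2
  rw [QuotientGroup.eq] at h2
  obtain ⟨g, hg⟩ := h2
  apply Quotient.sound
  refine ⟨g, Q_ext h1.symm ?_⟩
  change L.ι g * q'.1.2 = q.1.2
  rw [hg]
  group

variable (𝕜 : Type) [CommRing 𝕜]

/-- permutation representation on chains -/
noncomputable def permL (k : ℕ) : Representation 𝕜 Λ (Q R k →₀ 𝕜) :=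
  @perm 𝕜 _ Λ _ (Q R k) (mact L k)

variable {𝕜}

lemma permL_single {k : ℕ} (g : Λ) (q : Q R k) (c : 𝕜) :
    permL L 𝕜 k g (Finsupp.single q c) = Finsupp.single (act L g q) c :=
  @perm_single 𝕜 _ Λ _ (Q R k) (mact L k) g q c

lemma permL_projective (k : ℕ) : Projective (Rep.of (permL L 𝕜 k)) :=
  @perm_projective 𝕜 _ Λ _ (Q R k) (mact L k) (fun g q h => act_free L g q h)

lemma dB_act {k : ℕ} (g : Λ) (q : Q R (k + 1)) :
    (dB (act L g q) : Q R k →₀ 𝕜) = permL L 𝕜 k g (dB q) := by
  unfold dB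
  rw [map_sum]
  refine Finset.sum_congr rfl fun v _ => ?_
  rw [map_smul, map_add, permL_single, permL_single]
  congr 2
  congr 1
  refine Q_ext rfl ?_
  change L.ι g * q.1.2 * R.s v.1 = L.ι g * (q.1.2 * R.s v.1)
  rw [mul_assoc]

lemma del_permL {k : ℕ} (g : Λ) (x : Q R (k + 1) →₀ 𝕜) :
    del R k (permL L 𝕜 _ g x) = permL L 𝕜 _ g (del R k x) := by
  induction x using Finsupp.induction_linear with
  | zero => simp
  | add x y hx hy => rw [map_add, map_add, hx, hy, map_add, map_add]
  | single q c =>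
    rw [permL_single, del_single, del_single, map_smul, dB_act]

variable (𝕜) in
/-- boundary as intertwining map -/
noncomputable def delI (k : ℕ) : (permL L 𝕜 (k + 1)).IntertwiningMap (permL L 𝕜 k) :=
  ⟨del R k, fun g => LinearMap.ext fun x => del_permL L g x⟩

lemma aug_permL (g : Λ) (x : Q R 0 →₀ 𝕜) : aug 𝕜 R (permL L 𝕜 0 g x) = aug 𝕜 R x := by
  induction x using Finsupp.induction_linear with
  | zero => simp
  | add x y hx hy => rw [map_add, map_add, hx, hy, map_add]
  | single q c =>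
    rw [permL_single, aug_single, aug_single]
    congr 1
    change sgn 𝕜 R (L.ι g * q.1.2) = sgn 𝕜 R q.1.2
    rw [sgn_mul]
    have : sgn 𝕜 R (L.ι g) = 1 := by
      unfold sgn
      simp [L.hχ]
    rw [this, one_mul]

variable (𝕜) in
/-- augmentation -/
noncomputable def augI : (permL L 𝕜 0).IntertwiningMap (Representation.trivial 𝕜 Λ 𝕜) :=
  ⟨aug 𝕜 R, fun g => LinearMap.ext fun x => aug_permL L g x⟩

variable (𝕜) in
/-- the chain complex -/
noncomputable def cplx (hirr : ∀ v, ¬ adj v v) : ChainComplex (Rep.{0} 𝕜 Λ) ℕ :=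
  ChainComplex.of (fun n => Rep.of (permL L 𝕜 n)) (fun n => Rep.ofHom (delI L 𝕜 n))
    (fun n => by
      apply Rep.hom_ext
      apply Representation.IntertwiningMap.toLinearMap_injective
      refine LinearMap.ext fun x => ?_
      exact del_del hirr n x)

variable (hirr : ∀ v, ¬ adj v v)

lemma cplx_d (n : ℕ) : (cplx L 𝕜 hirr).d (n + 1) n = Rep.ofHom (delI L 𝕜 n) :=
  ChainComplex.of_d (fun n => Rep.of (permL L 𝕜 n)) (fun n => Rep.ofHom (delI L 𝕜 n)) n

variable (𝕜) in
/-- the augmentation as chain map -/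
noncomputable def cplxπ : cplx L 𝕜 hirr ⟶
    (ChainComplex.single₀ (Rep 𝕜 Λ)).obj (Rep.trivial 𝕜 Λ 𝕜) :=
  ((cplx L 𝕜 hirr).toSingle₀Equiv _).symm ⟨Rep.ofHom (augI L 𝕜), by
    rw [cplx_d]
    apply Rep.hom_ext
    apply Representation.IntertwiningMap.toLinearMap_injective
    refine LinearMap.ext fun x => ?_
    exact aug_del x⟩

lemma cplxπ_f : (cplxπ L 𝕜 hirr).f 0 = Rep.ofHom (augI L 𝕜) := by
  unfold cplxπ
  exact ChainComplex.toSingle₀Equiv_symm_apply_f_zero _ _

lemma cplx_quasiIso [Nonempty V] (hone : R.len 1 = 0) : QuasiIso (cplxπ L 𝕜 hirr) where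
  quasiIsoAt m := by
    cases m with
    | zero =>
      rw [ChainComplex.quasiIsoAt₀_iff, ShortComplex.quasiIso_iff_of_zeros' _ rfl rfl rfl]
      constructor
      · apply (forget₂ _ (ModuleCat 𝕜)).reflects_exact_of_faithful
        rw [ShortComplex.moduleCat_exact_iff]
        intro x hx
        have hx' : (Rep.Hom.hom ((cplxπ L 𝕜 hirr).f 0)) x = 0 := hx
        rw [cplxπ_f] at hx'
        obtain ⟨y, hy⟩ := exact_zero hirr hone x hx'
        refine ⟨y, ?_⟩
        change (Rep.Hom.hom ((cplx L 𝕜 hirr).d 1 0)) y = x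
        rw [cplx_d]
        exact hy
      · rw [Rep.epi_iff_surjective]
        intro x
        obtain ⟨y, hy⟩ := aug_surj (𝕜 := 𝕜) (R := R) x
        refine ⟨y, ?_⟩
        change (Rep.Hom.hom ((cplxπ L 𝕜 hirr).f 0)) y = x
        rw [cplxπ_f]
        exact hy
    | succ m =>
      rw [quasiIsoAt_iff_exactAt' (hL := ChainComplex.exactAt_succ_single_obj ..),
          HomologicalComplex.exactAt_iff' _ (m + 2) (m + 1) m (by simp) (by simp)]
      apply (forget₂ _ (ModuleCat 𝕜)).reflects_exact_of_faithful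
      rw [ShortComplex.moduleCat_exact_iff]
      intro x hx
      have hx' : (Rep.Hom.hom ((cplx L 𝕜 hirr).d (m + 1) m)) x = 0 := hx
      rw [cplx_d] at hx'
      obtain ⟨y, hy⟩ := exact_pos hirr hone m x hx'
      refine ⟨y, ?_⟩
      change (Rep.Hom.hom ((cplx L 𝕜 hirr).d (m + 1 + 1) (m + 1))) y = x
      rw [cplx_d]
      exact hy

/-- The Davis complex gives a projective resolution of the trivial module. -/
noncomputable def resol [Nonempty V] (hone : R.len 1 = 0) :
    ProjectiveResolution (Rep.trivial 𝕜 Λ 𝕜) where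
  complex := cplx L 𝕜 hirr
  projective n := permL_projective L n
  π := cplxπ L 𝕜 hirr
  quasiIso := cplx_quasiIso L hirr hone

end Pool.Agent.H75.Davis
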