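import Pool.Agent.H75.Davis.Top

/-!
# An explicit flag triangulation of the torus with 12 vertices

The vertices are the elements of `ℤ²/⟨(2,4),(4,2)⟩`, adjacent when the difference is
`±(1,0), ±(0,1), ±(1,1)`; everything is encoded by numerical tables.
-/

namespace Pool.Agent.H75.Davis.Torus

open Finset

/-- adjacency -/
def adjB (a c : Fin 12) : Bool :=
  Nat.testBit 6221078551246557846414162870460055526332130 (12 * a.val + c.val)

/-- adjacency -/
def adjT (a c : Fin 12) : Prop := adjB a c = true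

instance : DecidableRel adjT := fun a c => inferInstanceAs (Decidable (adjB a c = true))

lemma adj_symm : ∀ u v, adjT u v → adjT v u := by decide +kernel

lemma adj_irr : ∀ v, ¬ adjT v v := by decide +kernel

/-- code of a simplex -/
def code (σ : Finset (Fin 12)) : ℕ := ∑ x ∈ σ, 2 ^ x.val

lemma code_pair {a b : Fin 12} (h : a ≠ b) : code {a, b} = 2 ^ a.val + 2 ^ b.val := by
  unfold code; rw [Finset.sum_pair h]

lemma code_triple {a b c : Fin 12} (h1 : a ≠ b) (h2 : a ≠ c) (h3 : b ≠ c) :
    code {a, b, c} = 2 ^ a.val + 2 ^ b.val + 2 ^ c.val := by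
  unfold code
  rw [Finset.sum_insert (by simp [h1, h2]), Finset.sum_pair h3, add_assoc]

/-- orientation -/
def oc (c : ℕ) : ℤ :=
  if [131, 545, 1537, 262, 3074, 524, 1048, 200, 2096, 400, 2144, 800].contains c then 1 else -1

/-- cocycle -/
def bc (c : ℕ) : ℤ :=
  if [12, 192, 1536].contains c then 1 else if [65, 520, 33, 72, 513].contains c then -1 else 0

/-- cycle -/
def ec (c : ℕ) : ℤ :=
  if [3, 6, 68].contains c then 1 else if c = 65 then -1 else 0

/-- depth -/
def dc (c : ℕ) : ℕ :=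
  if c = 131 then 0 else
  if [1027, 193].contains c then 1 else
  if c = 386 then 1 else
  if [97, 1537, 262, 3074, 200, 400].contains c then 2 else
  if [545, 2054, 76, 772, 152, 1544, 304, 3088, 2144].contains c then 3 else 4

/-- sign of `x` relative to a pair -/
def s2 (x a b : Fin 12) : ℤ := (if a < x then -1 else 1) * (if b < x then -1 else 1)

lemma sg_pair (x a b : Fin 12) (h : a ≠ b) : sg ℤ x {a, b} = s2 x a b := by
  revert x a b h
  unfold sg s2
  decide +kernel

lemma sg_single (x a : Fin 12) : sg ℤ x {a} = if a < x then -1 else 1 := by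
  revert x a
  unfold sg
  decide +kernel

lemma chk_no4 : ∀ a b : Fin 12, adjT a b → ∀ c, adjT a c → adjT b c → ∀ d, adjT a d → adjT b d →
    ¬ adjT c d := by
  decide +kernel

lemma chk_o : ∀ a b : Fin 12, adjT a b →
    ((List.finRange 12).map (fun v => if adjT v a ∧ adjT v b then
      s2 v a b * oc (2 ^ v.val + 2 ^ a.val + 2 ^ b.val) else 0)).sum = 0 := by
  decide +kernel

lemma chk_two : ∀ x y : Fin 12, adjT x y → ∀ a, adjT a x → adjT a y →
    ∀ b, adjT b x → adjT b y → a ≠ b → ∀ c, adjT c x → adjT c y → c = a ∨ c = b := by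
  decide +kernel

/-- `{z, a, b}` is a triangle closer to the base than `{a, b, c}` -/
def Closer (z a b c : Fin 12) : Prop :=
  adjT z a ∧ adjT z b ∧ z ≠ c ∧
    dc (2 ^ z.val + 2 ^ a.val + 2 ^ b.val) < dc (2 ^ a.val + 2 ^ b.val + 2 ^ c.val)

instance (z a b c : Fin 12) : Decidable (Closer z a b c) := by
  unfold Closer; infer_instance

lemma chk_conn : ∀ a b : Fin 12, adjT a b → ∀ c, adjT a c → adjT b c →
    2 ^ a.val + 2 ^ b.val + 2 ^ c.val ≠ 131 →
    ∃ z : Fin 12, Closer z a b c ∨ Closer z a c b ∨ Closer z b c a := by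
  decide +kernel

lemma chk_base : ∀ a b c : Fin 12, 2 ^ a.val + 2 ^ b.val + 2 ^ c.val = 131 → a ≠ b → a ≠ c →
    b ≠ c → ({a, b, c} : Finset (Fin 12)) = {0, 1, 7} := by
  decide +kernel

lemma chk_cover : ∀ v : Fin 12, ∃ a b, adjT v a ∧ adjT v b ∧ adjT a b := by
  decide +kernel

lemma chk_b : ∀ a b c : Fin 12, adjT a b → adjT a c → adjT b c →
    s2 a b c * bc (2 ^ b.val + 2 ^ c.val) + s2 b a c * bc (2 ^ a.val + 2 ^ c.val) +
      s2 c a b * bc (2 ^ a.val + 2 ^ b.val) = 0 := by
  decide +kernel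

lemma chk_e : ∀ a : Fin 12,
    ((List.finRange 12).map (fun v => if adjT v a then
      (if a < v then -1 else 1) * ec (2 ^ v.val + 2 ^ a.val) else 0)).sum = 0 := by
  decide +kernel

lemma chk_pair : ∀ a b : Fin 12, a ≠ b →
    bc (2 ^ a.val + 2 ^ b.val) * ec (2 ^ a.val + 2 ^ b.val) ≠ 0 →
    ({a, b} : Finset (Fin 12)) = {0, 6} := by
  decide +kernel

lemma clq_pair {τ : Finset (Fin 12)} (h : Clq adjT τ) (hk : τ.card = 2) :
    ∃ a b, a ≠ b ∧ τ = {a, b} ∧ adjT a b := by
  obtain ⟨a, b, hab, rfl⟩ := Finset.card_eq_two.1 hk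
  exact ⟨a, b, hab, rfl, h a (by simp) b (by simp) hab⟩

lemma clq_triple {σ : Finset (Fin 12)} (h : Clq adjT σ) (hk : σ.card = 3) :
    ∃ a b c, a ≠ b ∧ a ≠ c ∧ b ≠ c ∧ σ = {a, b, c} ∧ adjT a b ∧ adjT a c ∧ adjT b c := by
  obtain ⟨a, b, c, hab, hac, hbc, rfl⟩ := Finset.card_eq_three.1 hk
  exact ⟨a, b, c, hab, hac, hbc, rfl, h a (by simp) b (by simp) hab, h a (by simp) c (by simp) hac,
    h b (by simp) c (by simp) hbc⟩

lemma adj_ne {a b : Fin 12} (h : adjT a b) : a ≠ b := by
  rintro rfl; exact adj_irr _ h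

lemma pair_clq {a b : Fin 12} (h : adjT a b) : Clq adjT {a, b} := by
  intro u hu v hv huv
  simp only [mem_insert, mem_singleton] at hu hv
  rcases hu with rfl | rfl <;> rcases hv with rfl | rfl
  · exact absurd rfl huv
  · exact h
  · exact adj_symm _ _ h
  · exact absurd rfl huv

lemma insert_clq {v : Fin 12} {τ : Finset (Fin 12)} (hv : v ∉ τ) (hτ : Clq adjT τ) :
    Clq adjT (insert v τ) ↔ ∀ x ∈ τ, adjT v x := by
  constructor
  · intro h x hx
    exact h v (mem_insert_self _ _) x (mem_insert_of_mem hx) (by rintro rfl; exact hv hx)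
  · intro h u hu w hw huw
    rcases mem_insert.1 hu with rfl | hu'
    · rcases mem_insert.1 hw with rfl | hw'
      · exact absurd rfl huw
      · exact h w hw'
    · rcases mem_insert.1 hw with rfl | hw'
      · exact adj_symm _ _ (h u hu')
      · exact hτ u hu' w hw' huw

lemma triple_clq {a b c : Fin 12} (h1 : adjT a b) (h2 : adjT a c) (h3 : adjT b c) :
    Clq adjT {a, b, c} := by
  rw [insert_clq _ (pair_clq h3)]
  · intro x hx
    simp only [mem_insert, mem_singleton] at hx
    rcases hx with rfl | rfl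
    · exact h1
    · exact h2
  · simp [adj_ne h1, adj_ne h2]

lemma T_o (τ : Finset (Fin 12)) (h : Clq adjT τ) (hk : τ.card = 2) :
    ∑ v ∈ univ.filter (· ∉ τ), sg ℤ v τ * (open Classical in
        if Clq adjT (insert v τ) then oc (code (insert v τ)) else 0) = 0 := by
  classical
  obtain ⟨a, b, hab, rfl, hadj⟩ := clq_pair h hk
  have h1 := chk_o a b hadj
  rw [← Fin.sum_univ_def] at h1
  refine Eq.trans ?_ h1
  rw [Finset.sum_filter]
  refine Finset.sum_congr rfl fun v _ => ?_
  by_cases hv : v ∉ ({a, b} : Finset (Fin 12))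
  · rw [if_pos hv]
    have hv' : v ≠ a ∧ v ≠ b := by simpa using hv
    by_cases h2 : adjT v a ∧ adjT v b
    · rw [if_pos h2, if_pos ((insert_clq hv h).2 (by
        intro x hx
        simp only [mem_insert, mem_singleton] at hx
        rcases hx with rfl | rfl
        · exact h2.1
        · exact h2.2)), sg_pair _ _ _ hab, code_triple hv'.1 hv'.2 hab]
    · rw [if_neg h2, if_neg, mul_zero]
      intro h3
      have h4 := (insert_clq hv h).1 h3
      exact h2 ⟨h4 a (by simp), h4 b (by simp)⟩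
  · rw [if_neg hv, if_neg]
    simp only [mem_insert, mem_singleton, not_not] at hv
    rintro ⟨h2, h3⟩
    rcases hv with rfl | rfl
    · exact adj_irr _ h2
    · exact adj_irr _ h3

lemma T_e (τ : Finset (Fin 12)) (h : Clq adjT τ) (hk : τ.card = 1) :
    ∑ v ∈ univ.filter (· ∉ τ), sg ℤ v τ * (open Classical in
        if Clq adjT (insert v τ) then ec (code (insert v τ)) else 0) = 0 := by
  classical
  obtain ⟨a, rfl⟩ := Finset.card_eq_one.1 hk
  have h1 := chk_e a
  rw [← Fin.sum_univ_def] at h1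
  refine Eq.trans ?_ h1
  rw [Finset.sum_filter]
  refine Finset.sum_congr rfl fun v _ => ?_
  by_cases hv : v ∉ ({a} : Finset (Fin 12))
  · rw [if_pos hv]
    have hv' : v ≠ a := by simpa using hv
    by_cases h2 : adjT v a
    · rw [if_pos h2, if_pos ((insert_clq hv h).2 (by
        intro x hx
        simp only [mem_singleton] at hx
        rw [hx]; exact h2)), sg_single, code_pair hv']
    · rw [if_neg h2, if_neg, mul_zero]
      intro h3
      exact h2 ((insert_clq hv h).1 h3 a (by simp))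
  · rw [if_neg hv, if_neg]
    simp only [mem_singleton, not_not] at hv
    subst hv
    exact adj_irr _

lemma T_b (σ : Finset (Fin 12)) (h : Clq adjT σ) (hk : σ.card = 3) :
    ∑ v ∈ σ, sg ℤ v σ * bc (code (σ.erase v)) = 0 := by
  obtain ⟨a, b, c, hab, hac, hbc, rfl, h1, h2, h3⟩ := clq_triple h hk
  have ha : a ∉ ({b, c} : Finset (Fin 12)) := by simp [hab, hac]
  have hb : b ∉ ({a, c} : Finset (Fin 12)) := by simp [hab.symm, hbc]
  have hc : c ∉ ({a, b} : Finset (Fin 12)) := by simp [hac.symm, hbc.symm]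
  have e1 : ({a, b, c} : Finset (Fin 12)).erase a = {b, c} := erase_insert ha
  have e2 : ({a, b, c} : Finset (Fin 12)) = insert b {a, c} := by
    ext x; simp only [mem_insert, mem_singleton]; tauto
  have e3 : ({a, b, c} : Finset (Fin 12)) = insert c {a, b} := by
    ext x; simp only [mem_insert, mem_singleton]; tauto
  have e2' : ({a, b, c} : Finset (Fin 12)).erase b = {a, c} := by rw [e2]; exact erase_insert hb
  have e3' : ({a, b, c} : Finset (Fin 12)).erase c = {a, b} := by rw [e3]; exact erase_insert hc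
  have s1 : sg ℤ a {a, b, c} = s2 a b c := by rw [sg_insert_self, sg_pair _ _ _ hbc]
  have s2' : sg ℤ b {a, b, c} = s2 b a c := by rw [e2, sg_insert_self, sg_pair _ _ _ hac]
  have s3 : sg ℤ c {a, b, c} = s2 c a b := by rw [e3, sg_insert_self, sg_pair _ _ _ hab]
  rw [Finset.sum_insert ha, Finset.sum_pair hbc, e1, e2', e3', s1, s2', s3, code_pair hbc,
    code_pair hac, code_pair hab]
  have := chk_b a b c h1 h2 h3
  linarith

lemma T_no4 (σ : Finset (Fin 12)) (h : Clq adjT σ) : σ.card ≠ 4 := by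
  intro hk
  obtain ⟨a, τ, ha, rfl, hτ⟩ := Finset.card_eq_succ.1 hk
  obtain ⟨b, c, d, hbc, hbd, hcd, rfl⟩ := Finset.card_eq_three.1 hτ
  have ha' : a ≠ b ∧ a ≠ c ∧ a ≠ d := by simpa using ha
  exact chk_no4 a b (h a (by simp) b (by simp) ha'.1) c (h a (by simp) c (by simp) ha'.2.1)
    (h b (by simp) c (by simp) hbc) d (h a (by simp) d (by simp) ha'.2.2)
    (h b (by simp) d (by simp) hbd) (h c (by simp) d (by simp) hcd)

lemma T_two (τ : Finset (Fin 12)) (a b c : Fin 12) (h : Clq adjT τ) (hk : τ.card = 2)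
    (ha : a ∉ τ) (hb : b ∉ τ) (hc : c ∉ τ) (hab : a ≠ b)
    (h1 : Clq adjT (insert a τ)) (h2 : Clq adjT (insert b τ)) (h3 : Clq adjT (insert c τ)) :
    c = a ∨ c = b := by
  obtain ⟨x, y, hxy, rfl, hadj⟩ := clq_pair h hk
  have h1' := (insert_clq ha h).1 h1
  have h2' := (insert_clq hb h).1 h2
  have h3' := (insert_clq hc h).1 h3
  exact chk_two x y hadj a (h1' x (by simp)) (h1' y (by simp)) b (h2' x (by simp))
    (h2' y (by simp)) hab c (h3' x (by simp)) (h3' y (by simp))

lemma share_mk {z a b c : Fin 12} (h : Closer z a b c) (hab : adjT a b) (hac : adjT a c)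
    (hbc : adjT b c) : Share adjT {z, a, b} {a, b, c} := by
  obtain ⟨h1, h2, h3, -⟩ := h
  refine ⟨{a, b}, z, c, pair_clq hab, Finset.card_pair (adj_ne hab), ?_, ?_, h3, rfl, ?_, ?_, ?_⟩
  · simp [adj_ne h1, adj_ne h2]
  · simp [(adj_ne hac).symm, (adj_ne hbc).symm]
  · ext x; simp only [mem_insert, mem_singleton]; tauto
  · exact triple_clq h1 h2 hab
  · exact triple_clq hab hac hbc

lemma T_conn_aux (n : ℕ) : ∀ a b c : Fin 12, adjT a b → adjT a c → adjT b c →
    dc (2 ^ a.val + 2 ^ b.val + 2 ^ c.val) ≤ n →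
    Relation.ReflTransGen (Share adjT) {0, 1, 7} {a, b, c} := by
  induction n with
  | zero =>
    intro a b c h1 h2 h3 hn
    by_cases h : 2 ^ a.val + 2 ^ b.val + 2 ^ c.val = 131
    · rw [chk_base a b c h (adj_ne h1) (adj_ne h2) (adj_ne h3)]
    · obtain ⟨z, hz | hz | hz⟩ := chk_conn a b h1 c h2 h3 h
      · exact absurd hz.2.2.2 (by omega)
      · have := hz.2.2.2
        have e : 2 ^ a.val + 2 ^ c.val + 2 ^ b.val = 2 ^ a.val + 2 ^ b.val + 2 ^ c.val := by ring
        rw [e] at this
        omega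
      · have := hz.2.2.2
        have e : 2 ^ b.val + 2 ^ c.val + 2 ^ a.val = 2 ^ a.val + 2 ^ b.val + 2 ^ c.val := by ring
        rw [e] at this
        omega
  | succ n ih =>
    intro a b c h1 h2 h3 hn
    by_cases h : 2 ^ a.val + 2 ^ b.val + 2 ^ c.val = 131
    · rw [chk_base a b c h (adj_ne h1) (adj_ne h2) (adj_ne h3)]
    · obtain ⟨z, hz | hz | hz⟩ := chk_conn a b h1 c h2 h3 h
      · have h4 := hz.2.2.2
        exact (ih z a b hz.1 hz.2.1 h1 (by omega)).tail (share_mk hz h1 h2 h3)
      · have h4 := hz.2.2.2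
        have e : 2 ^ a.val + 2 ^ c.val + 2 ^ b.val = 2 ^ a.val + 2 ^ b.val + 2 ^ c.val := by ring
        rw [e] at h4
        have h5 := (ih z a c hz.1 hz.2.1 h2 (by omega)).tail (share_mk hz h2 h1 (adj_symm _ _ h3))
        have e2 : ({a, b, c} : Finset (Fin 12)) = {a, c, b} := by
          ext x; simp only [mem_insert, mem_singleton]; tauto
        rw [e2]
        exact h5
      · have h4 := hz.2.2.2
        have e : 2 ^ b.val + 2 ^ c.val + 2 ^ a.val = 2 ^ a.val + 2 ^ b.val + 2 ^ c.val := by ring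
        rw [e] at h4
        have h5 := (ih z b c hz.1 hz.2.1 h3 (by omega)).tail
          (share_mk hz h3 (adj_symm _ _ h1) (adj_symm _ _ h2))
        have e2 : ({a, b, c} : Finset (Fin 12)) = {b, c, a} := by
          ext x; simp only [mem_insert, mem_singleton]; tauto
        rw [e2]
        exact h5

/-- The explicit flag torus. -/
noncomputable def torus : LTop ℤ adjT where
  no4 := T_no4
  o σ := oc (code σ)
  o_sq σ _ _ := by unfold oc; split_ifs <;> rfl
  o_cyc := T_o
  two := T_two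
  base := {0, 1, 7}
  base_clq := triple_clq (by decide +kernel) (by decide +kernel) (by decide +kernel)
  base_card := by decide +kernel
  conn σ h hk := by
    obtain ⟨a, b, c, hab, hac, hbc, rfl, h1, h2, h3⟩ := clq_triple h hk
    exact T_conn_aux _ a b c h1 h2 h3 le_rfl
  cover v := by
    obtain ⟨a, b, h1, h2, h3⟩ := chk_cover v
    refine ⟨{v, a, b}, triple_clq h1 h2 h3, ?_, by simp⟩
    rw [Finset.card_eq_three]
    exact ⟨v, a, b, adj_ne h1, adj_ne h2, adj_ne h3, rfl⟩
  b σ := bc (code σ)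
  η σ := ec (code σ)
  b_coc := T_b
  η_cyc := T_e
  pairing := by
    classical
    rw [Finset.sum_eq_single ({0, 6} : Finset (Fin 12))]
    · rw [if_pos ⟨pair_clq (by decide +kernel), by decide +kernel⟩, code_pair (by decide)]
      decide +kernel
    · intro τ _ hne
      split_ifs with h
      · obtain ⟨a, b, hab, rfl, hadj⟩ := clq_pair h.1 h.2
        rw [code_pair hab]
        by_contra h0
        exact hne (chk_pair a b hab h0)
      · rfl
    · intro h
      exact absurd (mem_univ _) h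

end Pool.Agent.H75.Davis.Torus
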